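import Pool.Agent.helper14.NR.E5a.All
import Pool.Agent.helper14.NR.Base

/-!
Generated: the piece E5a, `5 ≤ e ≤ 32 / 5`, `0 ≤ e κ / 2 ≤ 3 / 20`.
-/

namespace Pool.Agent.helper14.NR.E5a

open Pool.Agent.helper31.EQ.R
open Pool.Agent.helper12.RS
open Pool.Agent.helper63.NF hiding TD
open Pool.Agent.helper14.NR

theorem piece {e κ : ℝ} (h1 : (5 : ℝ) ≤ e) (h2 : e ≤ 32 / 5) (hκ : 0 < κ)
    (hb2 : e * κ / 2 ≤ 3 / 20)
    (hcor : SF tab 7 e κ (39 / 10) → Corner tab 7 e κ (1 / 8) (1 / 20))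
    (far : FarW e κ) : Nonempty (RDataF e κ) :=
  have he : 0 < e := by linarith
  piece_c certs (by decide +kernel) (by decide +kernel) rfl (by linarith) hκ
    (inB_e (by norm_num) h1 h2 (by norm_num) (by norm_num))
    (inB_of (by norm_num) (show (0 : ℝ) ≤ e * κ / 2 by positivity) hb2 (by norm_num))
    (fun _ => hcor) far

end Pool.Agent.helper14.NR.E5a
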