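import Pool.Agent.helper14.NR.E5a.PN1

/-!
Generated: certificates.
-/

namespace Pool.Agent.helper14.NR.E5a

open Pool.Agent.helper31.IA (Z)
open Pool.Agent.helper31.IX (Op XOps runX Cov CovD cov_split covD_split)
open Pool.Agent.helper31.IC (TD)
open Pool.Agent.helper63.RG (reloc)
open Pool.Agent.helper63.NF hiding TD
open Pool.Agent.helper14.CF (xE covD_E)
open Pool.Agent.helper14.NR (share)

mutual
theorem A1_c0_t8 : CovD 1 gA1 [(183824809984, 12026118144), (82464210944, 82464210944), (42949672960, 42949672960)] :=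
  covD_E kA1_eq (.l 2)
    [(183824809984, 12026118144), (82464210944, 82464210944), (42949672960, 42949672960)] rfl (by decide +kernel)
theorem A1_c0_t10 : CovD 1 gA1 [(183824809984, 12026118144), (82464210944, 82464210944), (107374182400, 21474836480)] :=
  covD_E kA1_eq (.l 2)
    [(183824809984, 12026118144), (82464210944, 82464210944), (107374182400, 21474836480)] rfl (by decide +kernel)
end

mutual
theorem A1_c0_t12 : CovD 1 gA1 [(183824809984, 12026118144), (82464210944, 82464210944), (139586437120, 10737418240)] :=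
  covD_E kA1_eq (.n 1 (.n 1 (.n 1 (.n 1 (.n 0 (.l 0) (.l 0)) (.l 0)) (.n 1 (.l 0) (.l 0))) (.n 1 (.l 0) (.l 0))) (.n 1 (.l 0) (.l 0)))
    [(183824809984, 12026118144), (82464210944, 82464210944), (139586437120, 10737418240)] rfl (by decide +kernel)
theorem A1_c0_t13 : CovD 1 gA1 [(183824809984, 12026118144), (82464210944, 82464210944), (161061273600, 10737418240)] :=
  covD_E kA1_eq (.n 1 (.n 1 (.n 1 (.n 1 (.n 0 (.l 0) (.l 0)) (.l 0)) (.n 1 (.l 0) (.l 0))) (.n 1 (.l 0) (.l 0))) (.n 1 (.l 0) (.l 0)))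
    [(183824809984, 12026118144), (82464210944, 82464210944), (161061273600, 10737418240)] rfl (by decide +kernel)
end

mutual
theorem A1_c0_t17 : CovD 1 gA1 [(183824809984, 12026118144), (10308026368, 10308026368), (257698037760, 85899345920)] :=
  covD_E kA1_eq (.n 2 (.n 1 (.n 2 (.n 0 (.l 0) (.l 0)) (.l 0)) (.n 2 (.n 0 (.l 0) (.l 0)) (.l 0))) (.n 2 (.n 0 (.l 0) (.l 0)) (.l 0)))
    [(183824809984, 12026118144), (10308026368, 10308026368), (257698037760, 85899345920)] rfl (by decide +kernel)
theorem A1_c0_t18 : CovD 1 gA1 [(183824809984, 12026118144), (30924079104, 10308026368), (257698037760, 85899345920)] :=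
  covD_E kA1_eq (.n 2 (.n 1 (.n 2 (.l 0) (.l 0)) (.n 2 (.n 0 (.l 0) (.l 0)) (.l 0))) (.n 2 (.n 0 (.l 0) (.l 0)) (.l 0)))
    [(183824809984, 12026118144), (30924079104, 10308026368), (257698037760, 85899345920)] rfl (by decide +kernel)
end

mutual
theorem A1_c0_t19 : CovD 1 gA1 [(183824809984, 12026118144), (61848158208, 20616052736), (257698037760, 85899345920)] :=
  covD_E kA1_eq (.n 1 (.n 2 (.n 1 (.n 2 (.l 0) (.l 0)) (.n 2 (.l 0) (.l 0))) (.n 2 (.l 0) (.l 0))) (.n 2 (.n 2 (.l 0) (.l 0)) (.n 2 (.l 0) (.l 0))))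
    [(183824809984, 12026118144), (61848158208, 20616052736), (257698037760, 85899345920)] rfl (by decide +kernel)
theorem A1_c0_t20 : CovD 1 gA1 [(183824809984, 12026118144), (123696316416, 41232105472), (257698037760, 85899345920)] :=
  covD_E kA1_eq (.n 1 (.n 1 (.n 2 (.n 2 (.l 0) (.l 0)) (.n 0 (.l 0) (.l 0))) (.n 2 (.l 0) (.l 0))) (.n 0 (.n 2 (.l 0) (.l 0)) (.n 2 (.l 0) (.l 0))))
    [(183824809984, 12026118144), (123696316416, 41232105472), (257698037760, 85899345920)] rfl (by decide +kernel)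
end

mutual
theorem A1_c0_t23 : CovD 1 gA1 [(183824809984, 12026118144), (20616052736, 20616052736), (515396075520, 171798691840)] :=
  covD_E kA1_eq (.n 2 (.n 2 (.n 1 (.n 2 (.l 0) (.l 0)) (.n 2 (.l 0) (.l 0))) (.n 2 (.n 0 (.l 0) (.l 0)) (.l 0))) (.n 2 (.n 2 (.l 0) (.l 0)) (.n 0 (.l 0) (.l 0))))
    [(183824809984, 12026118144), (20616052736, 20616052736), (515396075520, 171798691840)] rfl (by decide +kernel)
theorem A1_c0_t24 : CovD 1 gA1 [(183824809984, 12026118144), (61848158208, 20616052736), (515396075520, 171798691840)] :=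
  covD_E kA1_eq (.n 2 (.n 2 (.n 0 (.n 1 (.l 0) (.l 0)) (.n 2 (.l 0) (.l 0))) (.n 2 (.n 0 (.l 0) (.l 0)) (.l 0))) (.n 0 (.n 2 (.l 0) (.l 0)) (.n 2 (.l 0) (.l 0))))
    [(183824809984, 12026118144), (61848158208, 20616052736), (515396075520, 171798691840)] rfl (by decide +kernel)
end

mutual
theorem A1_c0_t25 : CovD 1 gA1 [(183824809984, 12026118144), (123696316416, 41232105472), (515396075520, 171798691840)] :=
  covD_E kA1_eq (.n 1 (.n 1 (.n 2 (.n 2 (.l 0) (.l 0)) (.n 2 (.l 0) (.l 0))) (.n 2 (.n 2 (.l 0) (.l 0)) (.n 2 (.l 0) (.l 0)))) (.n 0 (.n 2 (.n 2 (.l 0) (.l 0)) (.n 2 (.l 0) (.l 0))) (.n 2 (.n 2 (.l 0) (.l 0)) (.n 2 (.l 0) (.l 0)))))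
    [(183824809984, 12026118144), (123696316416, 41232105472), (515396075520, 171798691840)] rfl (by decide +kernel)
theorem A1_c0_t28 : CovD 1 gA1 [(183824809984, 12026118144), (41232105472, 41232105472), (858993459200, 171798691840)] :=
  covD_E kA1_eq (.n 1 (.n 2 (.n 0 (.n 2 (.l 0) (.l 0)) (.n 2 (.l 0) (.l 0))) (.n 2 (.l 0) (.l 0))) (.n 2 (.n 2 (.n 0 (.l 0) (.l 0)) (.l 0)) (.n 2 (.l 0) (.l 0))))
    [(183824809984, 12026118144), (41232105472, 41232105472), (858993459200, 171798691840)] rfl (by decide +kernel)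
end

mutual
theorem A1_c0_t29 : CovD 1 gA1 [(183824809984, 12026118144), (41232105472, 41232105472), (1202590842880, 171798691840)] :=
  covD_E kA1_eq (.n 2 (.n 0 (.n 1 (.l 0) (.l 0)) (.n 1 (.l 0) (.l 0))) (.n 2 (.n 0 (.l 0) (.l 0)) (.l 0)))
    [(183824809984, 12026118144), (41232105472, 41232105472), (1202590842880, 171798691840)] rfl (by decide +kernel)
theorem A1_c0_t31 : CovD 1 gA1 [(183824809984, 12026118144), (103080263680, 20616052736), (1030792151040, 343597383680)] :=
  covD_E kA1_eq (.n 2 (.n 2 (.n 2 (.n 0 (.l 0) (.l 0)) (.l 0)) (.n 2 (.l 0) (.l 0))) (.n 0 (.n 2 (.l 0) (.l 0)) (.n 2 (.l 0) (.l 0))))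
    [(183824809984, 12026118144), (103080263680, 20616052736), (1030792151040, 343597383680)] rfl (by decide +kernel)
end

mutual
theorem A1_c0_t32 : CovD 1 gA1 [(183824809984, 12026118144), (144312369152, 20616052736), (1030792151040, 343597383680)] :=
  covD_E kA1_eq (.n 2 (.n 2 (.n 2 (.l 0) (.l 0)) (.n 2 (.l 0) (.l 0))) (.n 0 (.n 2 (.l 0) (.l 0)) (.n 2 (.l 0) (.l 0))))
    [(183824809984, 12026118144), (144312369152, 20616052736), (1030792151040, 343597383680)] rfl (by decide +kernel)
theorem A1_c0_t34 : CovD 1 gA1 [(183824809984, 12026118144), (41232105472, 41232105472), (2061584302080, 687194767360)] :=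
  covD_E kA1_eq (.n 2 (.n 2 (.n 0 (.n 2 (.l 0) (.l 0)) (.n 2 (.l 0) (.l 0))) (.n 2 (.l 0) (.l 0))) (.n 0 (.n 2 (.l 0) (.l 0)) (.n 2 (.l 0) (.l 0))))
    [(183824809984, 12026118144), (41232105472, 41232105472), (2061584302080, 687194767360)] rfl (by decide +kernel)
end

mutual
theorem A1_c0_t35 : CovD 1 gA1 [(183824809984, 12026118144), (123696316416, 41232105472), (2061584302080, 687194767360)] :=
  covD_E kA1_eq (.n 2 (.n 2 (.n 0 (.n 2 (.l 0) (.l 0)) (.n 2 (.l 0) (.l 0))) (.n 2 (.n 0 (.l 0) (.l 0)) (.l 0))) (.n 0 (.n 2 (.l 0) (.l 0)) (.n 2 (.l 0) (.l 0))))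
    [(183824809984, 12026118144), (123696316416, 41232105472), (2061584302080, 687194767360)] rfl (by decide +kernel)
theorem A1_c0_t37 : CovD 1 gA1 [(183824809984, 12026118144), (41232105472, 41232105472), (4123168604160, 1374389534720)] :=
  covD_E kA1_eq (.n 2 (.n 2 (.n 2 (.n 0 (.l 0) (.l 0)) (.l 0)) (.n 0 (.l 0) (.l 0))) (.n 2 (.n 0 (.n 2 (.l 0) (.l 0)) (.l 0)) (.n 2 (.n 0 (.n 2 (.l 0) (.l 1)) (.l 0)) (.l 1))))
    [(183824809984, 12026118144), (41232105472, 41232105472), (4123168604160, 1374389534720)] rfl (by decide +kernel)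
end

mutual
theorem A1_c0_t39 : CovD 1 gA1 [(177811750912, 6013059072), (123696316416, 41232105472), (4123168604160, 1374389534720)] :=
  covD_E kA1_eq (.n 2 (.n 2 (.n 2 (.l 0) (.l 0)) (.n 0 (.l 0) (.l 0))) (.n 2 (.n 2 (.l 0) (.n 0 (.n 1 (.l 0) (.n 2 (.l 0) (.n 0 (.n 0 (.l 0) (.l 0)) (.l 0)))) (.n 0 (.l 0) (.l 0)))) (.n 2 (.n 1 (.l 1) (.l 1)) (.l 1))))
    [(177811750912, 6013059072), (123696316416, 41232105472), (4123168604160, 1374389534720)] rfl (by decide +kernel)
theorem A1_c0_t40 : CovD 1 gA1 [(189837869056, 6013059072), (123696316416, 41232105472), (4123168604160, 1374389534720)] :=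
  covD_E kA1_eq (.n 2 (.n 1 (.n 2 (.l 0) (.l 0)) (.n 2 (.l 0) (.l 0))) (.n 2 (.n 2 (.l 0) (.l 0)) (.n 2 (.n 2 (.l 0) (.l 1)) (.l 1))))
    [(189837869056, 6013059072), (123696316416, 41232105472), (4123168604160, 1374389534720)] rfl (by decide +kernel)
end

mutual
theorem A1_c0_t47 : CovD 1 gA1 [(207877046272, 12026118144), (82464210944, 82464210944), (42949672960, 42949672960)] :=
  covD_E kA1_eq (.l 2)
    [(207877046272, 12026118144), (82464210944, 82464210944), (42949672960, 42949672960)] rfl (by decide +kernel)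
theorem A1_c0_t49 : CovD 1 gA1 [(207877046272, 12026118144), (82464210944, 82464210944), (107374182400, 21474836480)] :=
  covD_E kA1_eq (.l 2)
    [(207877046272, 12026118144), (82464210944, 82464210944), (107374182400, 21474836480)] rfl (by decide +kernel)
end

mutual
theorem A1_c0_t51 : CovD 1 gA1 [(207877046272, 12026118144), (82464210944, 82464210944), (139586437120, 10737418240)] :=
  covD_E kA1_eq (.n 1 (.n 1 (.n 1 (.n 0 (.n 1 (.l 0) (.l 0)) (.n 1 (.l 0) (.l 0))) (.n 1 (.n 0 (.l 0) (.l 0)) (.l 0))) (.n 1 (.l 0) (.l 0))) (.n 1 (.l 0) (.l 0)))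
    [(207877046272, 12026118144), (82464210944, 82464210944), (139586437120, 10737418240)] rfl (by decide +kernel)
theorem A1_c0_t52 : CovD 1 gA1 [(207877046272, 12026118144), (82464210944, 82464210944), (161061273600, 10737418240)] :=
  covD_E kA1_eq (.n 1 (.n 1 (.n 1 (.n 1 (.l 0) (.l 0)) (.n 1 (.l 0) (.l 0))) (.n 1 (.l 0) (.l 0))) (.n 1 (.l 0) (.l 0)))
    [(207877046272, 12026118144), (82464210944, 82464210944), (161061273600, 10737418240)] rfl (by decide +kernel)
end

mutual
theorem A1_c0_t56 : CovD 1 gA1 [(207877046272, 12026118144), (10308026368, 10308026368), (257698037760, 85899345920)] :=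
  covD_E kA1_eq (.n 1 (.n 2 (.n 1 (.n 2 (.l 0) (.l 0)) (.n 2 (.l 0) (.l 0))) (.n 2 (.l 0) (.l 0))) (.n 2 (.n 1 (.n 2 (.l 0) (.l 0)) (.n 2 (.l 0) (.l 0))) (.n 2 (.l 0) (.l 0))))
    [(207877046272, 12026118144), (10308026368, 10308026368), (257698037760, 85899345920)] rfl (by decide +kernel)
theorem A1_c0_t57 : CovD 1 gA1 [(207877046272, 12026118144), (30924079104, 10308026368), (257698037760, 85899345920)] :=
  covD_E kA1_eq (.n 1 (.n 2 (.n 2 (.n 0 (.l 0) (.l 0)) (.l 0)) (.n 2 (.l 0) (.l 0))) (.n 2 (.n 2 (.n 0 (.l 0) (.l 0)) (.l 0)) (.n 2 (.l 0) (.l 0))))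
    [(207877046272, 12026118144), (30924079104, 10308026368), (257698037760, 85899345920)] rfl (by decide +kernel)
end

mutual
theorem A1_c0_t58 : CovD 1 gA1 [(207877046272, 12026118144), (61848158208, 20616052736), (257698037760, 85899345920)] :=
  covD_E kA1_eq (.n 1 (.n 2 (.n 2 (.n 2 (.l 0) (.l 0)) (.n 0 (.l 0) (.l 0))) (.n 2 (.l 0) (.l 0))) (.n 2 (.n 2 (.l 0) (.l 0)) (.n 2 (.l 0) (.l 0))))
    [(207877046272, 12026118144), (61848158208, 20616052736), (257698037760, 85899345920)] rfl (by decide +kernel)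
theorem A1_c0_t59 : CovD 1 gA1 [(207877046272, 12026118144), (123696316416, 41232105472), (257698037760, 85899345920)] :=
  covD_E kA1_eq (.n 0 (.n 1 (.n 2 (.n 2 (.l 0) (.l 0)) (.n 1 (.l 0) (.l 0))) (.n 2 (.l 0) (.l 0))) (.n 1 (.n 2 (.n 2 (.l 0) (.l 0)) (.n 2 (.l 0) (.l 0))) (.n 2 (.l 0) (.l 0))))
    [(207877046272, 12026118144), (123696316416, 41232105472), (257698037760, 85899345920)] rfl (by decide +kernel)
end

mutual
theorem A1_c0_t62 : CovD 1 gA1 [(207877046272, 12026118144), (20616052736, 20616052736), (515396075520, 171798691840)] :=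
  covD_E kA1_eq (.n 2 (.n 2 (.n 1 (.n 2 (.l 0) (.l 0)) (.n 2 (.l 0) (.l 0))) (.n 2 (.n 0 (.l 0) (.l 0)) (.l 0))) (.n 2 (.n 2 (.l 0) (.l 0)) (.n 0 (.l 0) (.l 0))))
    [(207877046272, 12026118144), (20616052736, 20616052736), (515396075520, 171798691840)] rfl (by decide +kernel)
theorem A1_c0_t63 : CovD 1 gA1 [(207877046272, 12026118144), (61848158208, 20616052736), (515396075520, 171798691840)] :=
  covD_E kA1_eq (.n 2 (.n 1 (.n 2 (.n 2 (.l 0) (.l 0)) (.n 0 (.l 0) (.l 0))) (.n 2 (.n 2 (.l 0) (.l 0)) (.n 0 (.l 0) (.l 0)))) (.n 2 (.n 2 (.l 0) (.l 0)) (.n 0 (.l 0) (.l 0))))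
    [(207877046272, 12026118144), (61848158208, 20616052736), (515396075520, 171798691840)] rfl (by decide +kernel)
end

mutual
theorem A1_c0_t64 : CovD 1 gA1 [(207877046272, 12026118144), (123696316416, 41232105472), (515396075520, 171798691840)] :=
  covD_E kA1_eq (.n 1 (.n 2 (.n 2 (.n 2 (.l 0) (.l 0)) (.n 1 (.l 0) (.l 0))) (.n 0 (.n 2 (.l 0) (.l 0)) (.n 2 (.l 0) (.l 0)))) (.n 2 (.n 2 (.n 0 (.l 0) (.l 0)) (.l 0)) (.n 2 (.l 0) (.l 0))))
    [(207877046272, 12026118144), (123696316416, 41232105472), (515396075520, 171798691840)] rfl (by decide +kernel)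
theorem A1_c0_t67 : CovD 1 gA1 [(207877046272, 12026118144), (20616052736, 20616052736), (1030792151040, 343597383680)] :=
  covD_E kA1_eq (.n 2 (.n 2 (.n 0 (.n 2 (.l 0) (.l 0)) (.n 2 (.l 0) (.l 0))) (.n 2 (.l 0) (.l 0))) (.n 2 (.n 0 (.l 0) (.l 0)) (.l 0)))
    [(207877046272, 12026118144), (20616052736, 20616052736), (1030792151040, 343597383680)] rfl (by decide +kernel)
end

mutual
theorem A1_c0_t68 : CovD 1 gA1 [(207877046272, 12026118144), (61848158208, 20616052736), (1030792151040, 343597383680)] :=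
  covD_E kA1_eq (.n 2 (.n 2 (.n 2 (.n 0 (.l 0) (.l 0)) (.l 0)) (.n 2 (.l 0) (.l 0))) (.n 2 (.n 0 (.l 0) (.l 0)) (.l 0)))
    [(207877046272, 12026118144), (61848158208, 20616052736), (1030792151040, 343597383680)] rfl (by decide +kernel)
theorem A1_c0_t69 : CovD 1 gA1 [(207877046272, 12026118144), (123696316416, 41232105472), (1030792151040, 343597383680)] :=
  covD_E kA1_eq (.n 1 (.n 2 (.n 2 (.n 2 (.l 0) (.l 0)) (.n 2 (.l 0) (.l 0))) (.n 2 (.n 0 (.l 0) (.l 0)) (.l 0))) (.n 2 (.n 2 (.n 2 (.l 0) (.l 0)) (.n 2 (.l 0) (.l 0))) (.n 0 (.n 2 (.l 0) (.l 0)) (.n 2 (.l 0) (.l 0)))))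
    [(207877046272, 12026118144), (123696316416, 41232105472), (1030792151040, 343597383680)] rfl (by decide +kernel)
end

mutual
theorem A1_c0_t71 : CovD 1 gA1 [(207877046272, 12026118144), (41232105472, 41232105472), (2061584302080, 687194767360)] :=
  covD_E kA1_eq (.n 2 (.n 2 (.n 0 (.n 2 (.l 0) (.l 0)) (.n 2 (.l 0) (.l 0))) (.n 2 (.l 0) (.l 0))) (.n 0 (.n 2 (.l 0) (.l 0)) (.n 2 (.l 0) (.l 0))))
    [(207877046272, 12026118144), (41232105472, 41232105472), (2061584302080, 687194767360)] rfl (by decide +kernel)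
theorem A1_c0_t72 : CovD 1 gA1 [(207877046272, 12026118144), (123696316416, 41232105472), (2061584302080, 687194767360)] :=
  covD_E kA1_eq (.n 2 (.n 2 (.n 0 (.n 2 (.l 0) (.l 0)) (.n 2 (.l 0) (.l 0))) (.n 2 (.l 0) (.l 0))) (.n 0 (.n 2 (.l 0) (.l 0)) (.n 2 (.l 0) (.l 0))))
    [(207877046272, 12026118144), (123696316416, 41232105472), (2061584302080, 687194767360)] rfl (by decide +kernel)
end

mutual
theorem A1_c0_t74 : CovD 1 gA1 [(207877046272, 12026118144), (41232105472, 41232105472), (4123168604160, 1374389534720)] :=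
  covD_E kA1_eq (.n 2 (.n 2 (.n 2 (.l 0) (.l 0)) (.n 0 (.l 0) (.l 0))) (.n 0 (.n 2 (.l 0) (.l 0)) (.n 2 (.l 0) (.l 0))))
    [(207877046272, 12026118144), (41232105472, 41232105472), (4123168604160, 1374389534720)] rfl (by decide +kernel)
theorem A1_c0_t75 : CovD 1 gA1 [(207877046272, 12026118144), (123696316416, 41232105472), (4123168604160, 1374389534720)] :=
  covD_E kA1_eq (.n 1 (.n 2 (.n 0 (.n 2 (.l 0) (.l 0)) (.n 2 (.l 0) (.l 0))) (.n 2 (.l 0) (.l 0))) (.n 2 (.n 0 (.n 2 (.l 0) (.l 0)) (.n 2 (.l 0) (.l 0))) (.n 2 (.n 0 (.l 0) (.l 0)) (.n 2 (.l 0) (.l 1)))))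
    [(207877046272, 12026118144), (123696316416, 41232105472), (4123168604160, 1374389534720)] rfl (by decide +kernel)
end

mutual
theorem A1_c0_t77 : CovD 1 gA1 [(183824809984, 12026118144), (82464210944, 82464210944), (8246337208320, 2748779069440)] :=
  covD_E kA1_eq (.n 1 (.n 2 (.n 2 (.n 0 (.l 1) (.l 1)) (.l 1)) (.n 2 (.l 1) (.l 1))) (.n 0 (.n 2 (.n 2 (.l 1) (.l 1)) (.n 2 (.l 1) (.l 1))) (.n 2 (.n 2 (.l 1) (.l 1)) (.n 2 (.l 1) (.l 1)))))
    [(183824809984, 12026118144), (82464210944, 82464210944), (8246337208320, 2748779069440)] rfl (by decide +kernel)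
theorem A1_c0_t78 : CovD 1 gA1 [(207877046272, 12026118144), (82464210944, 82464210944), (8246337208320, 2748779069440)] :=
  covD_E kA1_eq (.n 1 (.n 2 (.n 2 (.n 0 (.l 1) (.l 1)) (.l 1)) (.n 2 (.l 1) (.l 1))) (.n 0 (.n 2 (.n 2 (.l 1) (.l 1)) (.n 2 (.l 1) (.l 1))) (.n 2 (.n 2 (.l 1) (.l 1)) (.n 2 (.l 1) (.l 1)))))
    [(207877046272, 12026118144), (82464210944, 82464210944), (8246337208320, 2748779069440)] rfl (by decide +kernel)
end

mutual
theorem B1_c0_t2 : CovD 1 gB1 [(195850928128, 24052236288), (41232105472, 41232105472), (27487895552, 27487895552)] :=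
  covD_E kB1_eq (.n 1 (.n 2 (.n 2 (.n 1 (.l 1) (.l 1)) (.n 2 (.l 1) (.l 1))) (.n 0 (.n 2 (.l 1) (.l 1)) (.n 2 (.l 0) (.l 0)))) (.n 2 (.n 2 (.n 2 (.l 1) (.l 1)) (.n 2 (.l 1) (.l 1))) (.n 2 (.n 2 (.l 1) (.l 1)) (.n 2 (.l 1) (.l 1)))))
    [(195850928128, 24052236288), (41232105472, 41232105472), (27487895552, 27487895552)] rfl (by decide +kernel)
theorem B1_c0_t3 : CovD 1 gB1 [(195850928128, 24052236288), (41232105472, 41232105472), (82463686656, 27487895552)] :=
  covD_E kB1_eq (.n 0 (.n 2 (.n 0 (.n 2 (.l 1) (.l 1)) (.n 2 (.l 1) (.l 1))) (.n 2 (.n 0 (.l 1) (.l 1)) (.l 1))) (.n 2 (.n 2 (.n 0 (.l 1) (.l 1)) (.l 1)) (.n 2 (.l 1) (.l 1))))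
    [(195850928128, 24052236288), (41232105472, 41232105472), (82463686656, 27487895552)] rfl (by decide +kernel)
end

mutual
theorem B1_c0_t6 : CovD 1 gB1 [(183824809984, 12026118144), (103080263680, 20616052736), (54975791104, 54975791104)] :=
  covD_E kB1_eq (.n 2 (.n 2 (.n 2 (.n 2 (.l 1) (.l 1)) (.n 2 (.l 1) (.l 1))) (.n 2 (.n 2 (.l 1) (.l 1)) (.n 0 (.l 1) (.l 1)))) (.n 2 (.n 2 (.n 0 (.l 1) (.l 1)) (.l 1)) (.n 2 (.l 1) (.l 1))))
    [(183824809984, 12026118144), (103080263680, 20616052736), (54975791104, 54975791104)] rfl (by decide +kernel)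
theorem B1_c0_t7 : CovD 1 gB1 [(207877046272, 12026118144), (103080263680, 20616052736), (54975791104, 54975791104)] :=
  covD_E kB1_eq (.n 2 (.n 2 (.n 2 (.n 2 (.l 1) (.l 1)) (.n 1 (.l 1) (.l 1))) (.n 0 (.n 2 (.l 1) (.l 1)) (.n 2 (.l 1) (.l 1)))) (.n 2 (.n 2 (.l 1) (.l 1)) (.n 2 (.l 1) (.l 1))))
    [(207877046272, 12026118144), (103080263680, 20616052736), (54975791104, 54975791104)] rfl (by decide +kernel)
end

mutual
theorem B1_c0_t10 : CovD 1 gB1 [(195850928128, 24052236288), (144312369152, 20616052736), (13743947776, 13743947776)] :=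
  covD_E kB1_eq (.n 2 (.n 1 (.n 2 (.l 1) (.n 0 (.l 1) (.l 1))) (.n 0 (.n 2 (.l 1) (.l 1)) (.n 2 (.l 1) (.l 1)))) (.n 0 (.n 1 (.n 2 (.l 1) (.l 1)) (.n 2 (.l 1) (.l 1))) (.n 2 (.n 0 (.l 1) (.l 1)) (.l 1))))
    [(195850928128, 24052236288), (144312369152, 20616052736), (13743947776, 13743947776)] rfl (by decide +kernel)
theorem B1_c0_t11 : CovD 1 gB1 [(195850928128, 24052236288), (144312369152, 20616052736), (41231843328, 13743947776)] :=
  covD_E kB1_eq (.n 0 (.n 2 (.n 0 (.n 2 (.l 1) (.l 1)) (.n 2 (.l 1) (.l 1))) (.n 2 (.l 1) (.l 1))) (.n 2 (.n 2 (.l 1) (.l 1)) (.n 2 (.l 1) (.l 1))))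
    [(195850928128, 24052236288), (144312369152, 20616052736), (41231843328, 13743947776)] rfl (by decide +kernel)
end

mutual
theorem B1_c0_t12 : CovD 1 gB1 [(195850928128, 24052236288), (144312369152, 20616052736), (82463686656, 27487895552)] :=
  covD_E kB1_eq (.n 0 (.n 2 (.n 2 (.n 2 (.l 1) (.l 1)) (.n 0 (.l 1) (.l 1))) (.n 2 (.l 1) (.l 1))) (.n 2 (.n 0 (.n 2 (.l 1) (.l 1)) (.n 2 (.l 1) (.l 1))) (.n 2 (.l 1) (.l 1))))
    [(195850928128, 24052236288), (144312369152, 20616052736), (82463686656, 27487895552)] rfl (by decide +kernel)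
theorem C1_c0_t4 : CovD 1 gC1 [(195850928128, 24052236288), (10308026368, 10308026368), (274877906944, 274877906944)] :=
  covD_E kC1_eq (.n 0 (.n 2 (.n 2 (.l 0) (.l 0)) (.n 2 (.l 0) (.l 0))) (.n 2 (.n 2 (.l 0) (.l 0)) (.n 2 (.n 0 (.l 0) (.l 0)) (.l 0))))
    [(195850928128, 24052236288), (10308026368, 10308026368), (274877906944, 274877906944)] rfl (by decide +kernel)
end

mutual
theorem C1_c0_t8 : CovD 1 gC1 [(183824809984, 12026118144), (5154013184, 5154013184), (687194767360, 137438953472)] :=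
  covD_E kC1_eq (.n 2 (.l 0) (.l 0))
    [(183824809984, 12026118144), (5154013184, 5154013184), (687194767360, 137438953472)] rfl (by decide +kernel)
theorem C1_c0_t10 : CovD 1 gC1 [(183824809984, 12026118144), (5154013184, 5154013184), (893353197568, 68719476736)] :=
  covD_E kC1_eq (.l 0)
    [(183824809984, 12026118144), (5154013184, 5154013184), (893353197568, 68719476736)] rfl (by decide +kernel)
end

mutual
theorem C1_c0_t15 : CovD 1 gC1 [(183824809984, 12026118144), (644251648, 644251648), (996432412672, 34359738368)] :=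
  covD_E kC1_eq (.l 0)
    [(183824809984, 12026118144), (644251648, 644251648), (996432412672, 34359738368)] rfl (by decide +kernel)
theorem C1_c0_t20 : CovD 1 gC1 [(183824809984, 12026118144), (80531456, 80531456), (1047972020224, 17179869184)] :=
  covD_E kC1_eq (.l 0)
    [(183824809984, 12026118144), (80531456, 80531456), (1047972020224, 17179869184)] rfl (by decide +kernel)
end

mutual
theorem C1_c0_t22 : CovD 1 gC1 [(183824809984, 12026118144), (80531456, 80531456), (1073741824000, 8589934592)] :=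
  covD_E kC1_eq (.l 0)
    [(183824809984, 12026118144), (80531456, 80531456), (1073741824000, 8589934592)] rfl (by decide +kernel)
theorem C1_c0_t24 : CovD 1 gC1 [(183824809984, 12026118144), (80531456, 80531456), (1086626725888, 4294967296)] :=
  covD_E kC1_eq (.l 0)
    [(183824809984, 12026118144), (80531456, 80531456), (1086626725888, 4294967296)] rfl (by decide +kernel)
end

mutual
theorem C1_c0_t26 : CovD 1 gC1 [(183824809984, 12026118144), (80531456, 80531456), (1093069176832, 2147483648)] :=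
  covD_E kC1_eq (.l 0)
    [(183824809984, 12026118144), (80531456, 80531456), (1093069176832, 2147483648)] rfl (by decide +kernel)
theorem C1_c0_t28 : CovD 1 gC1 [(183824809984, 12026118144), (80531456, 80531456), (1096290402304, 1073741824)] :=
  covD_E kC1_eq (.l 0)
    [(183824809984, 12026118144), (80531456, 80531456), (1096290402304, 1073741824)] rfl (by decide +kernel)
end

mutual
theorem C1_c0_t29 : CovD 1 gC1 [(183824809984, 12026118144), (80531456, 80531456), (1098437885952, 1073741824)] :=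
  covD_E kC1_eq (.n 0 (.n 0 (.n 0 (.n 0 (.l 1) (.l 1)) (.n 0 (.l 1) (.l 1))) (.n 0 (.n 0 (.l 1) (.l 1)) (.n 0 (.l 1) (.l 1)))) (.n 0 (.n 0 (.n 0 (.l 1) (.l 1)) (.n 0 (.l 1) (.l 1))) (.n 0 (.n 0 (.l 1) (.l 1)) (.n 0 (.l 1) (.l 1)))))
    [(183824809984, 12026118144), (80531456, 80531456), (1098437885952, 1073741824)] rfl (by decide +kernel)
theorem C1_c0_t30 : CovD 1 gC1 [(183824809984, 12026118144), (241594368, 80531456), (1065151889408, 34359738368)] :=
  covD_E kC1_eq (.n 2 (.l 0) (.n 0 (.l 0) (.l 0)))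
    [(183824809984, 12026118144), (241594368, 80531456), (1065151889408, 34359738368)] rfl (by decide +kernel)
end

mutual
theorem C1_c0_t31 : CovD 1 gC1 [(183824809984, 12026118144), (483188736, 161062912), (1065151889408, 34359738368)] :=
  covD_E kC1_eq (.n 0 (.l 0) (.l 0))
    [(183824809984, 12026118144), (483188736, 161062912), (1065151889408, 34359738368)] rfl (by decide +kernel)
theorem C1_c0_t32 : CovD 1 gC1 [(183824809984, 12026118144), (966377472, 322125824), (1065151889408, 34359738368)] :=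
  covD_E kC1_eq (.l 0)
    [(183824809984, 12026118144), (966377472, 322125824), (1065151889408, 34359738368)] rfl (by decide +kernel)
end

mutual
theorem C1_c0_t33 : CovD 1 gC1 [(183824809984, 12026118144), (1932754944, 644251648), (1030792151040, 68719476736)] :=
  covD_E kC1_eq (.l 0)
    [(183824809984, 12026118144), (1932754944, 644251648), (1030792151040, 68719476736)] rfl (by decide +kernel)
theorem C1_c0_t34 : CovD 1 gC1 [(183824809984, 12026118144), (3865509888, 1288503296), (1030792151040, 68719476736)] :=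
  covD_E kC1_eq (.l 0)
    [(183824809984, 12026118144), (3865509888, 1288503296), (1030792151040, 68719476736)] rfl (by decide +kernel)
end

mutual
theorem C1_c0_t35 : CovD 1 gC1 [(183824809984, 12026118144), (7731019776, 2577006592), (1030792151040, 68719476736)] :=
  covD_E kC1_eq (.l 0)
    [(183824809984, 12026118144), (7731019776, 2577006592), (1030792151040, 68719476736)] rfl (by decide +kernel)
theorem C1_c0_t37 : CovD 1 gC1 [(207877046272, 12026118144), (5154013184, 5154013184), (687194767360, 137438953472)] :=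
  covD_E kC1_eq (.n 2 (.l 0) (.l 0))
    [(207877046272, 12026118144), (5154013184, 5154013184), (687194767360, 137438953472)] rfl (by decide +kernel)
end

mutual
theorem C1_c0_t39 : CovD 1 gC1 [(207877046272, 12026118144), (5154013184, 5154013184), (893353197568, 68719476736)] :=
  covD_E kC1_eq (.l 0)
    [(207877046272, 12026118144), (5154013184, 5154013184), (893353197568, 68719476736)] rfl (by decide +kernel)
theorem C1_c0_t44 : CovD 1 gC1 [(207877046272, 12026118144), (644251648, 644251648), (996432412672, 34359738368)] :=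
  covD_E kC1_eq (.l 0)
    [(207877046272, 12026118144), (644251648, 644251648), (996432412672, 34359738368)] rfl (by decide +kernel)
end

mutual
theorem C1_c0_t47 : CovD 1 gC1 [(207877046272, 12026118144), (322125824, 322125824), (1047972020224, 17179869184)] :=
  covD_E kC1_eq (.l 0)
    [(207877046272, 12026118144), (322125824, 322125824), (1047972020224, 17179869184)] rfl (by decide +kernel)
theorem C1_c0_t50 : CovD 1 gC1 [(207877046272, 12026118144), (161062912, 161062912), (1073741824000, 8589934592)] :=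
  covD_E kC1_eq (.l 0)
    [(207877046272, 12026118144), (161062912, 161062912), (1073741824000, 8589934592)] rfl (by decide +kernel)
end

mutual
theorem C1_c0_t54 : CovD 1 gC1 [(207877046272, 12026118144), (20132864, 20132864), (1090921693184, 8589934592)] :=
  covD_E kC1_eq (.n 2 (.l 0) (.n 2 (.l 0) (.n 2 (.l 0) (.n 2 (.l 0) (.n 2 (.l 0) (.n 0 (.n 0 (.n 0 (.n 0 (.l 1) (.l 1)) (.n 0 (.l 1) (.l 1))) (.n 0 (.n 0 (.l 1) (.l 1)) (.l 1))) (.n 0 (.n 0 (.l 1) (.l 1)) (.n 0 (.l 1) (.l 1)))))))))
    [(207877046272, 12026118144), (20132864, 20132864), (1090921693184, 8589934592)] rfl (by decide +kernel)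
theorem C1_c0_t55 : CovD 1 gC1 [(207877046272, 12026118144), (60398592, 20132864), (1090921693184, 8589934592)] :=
  covD_E kC1_eq (.n 0 (.l 0) (.l 0))
    [(207877046272, 12026118144), (60398592, 20132864), (1090921693184, 8589934592)] rfl (by decide +kernel)
end

mutual
theorem C1_c0_t56 : CovD 1 gC1 [(207877046272, 12026118144), (120797184, 40265728), (1090921693184, 8589934592)] :=
  covD_E kC1_eq (.l 0)
    [(207877046272, 12026118144), (120797184, 40265728), (1090921693184, 8589934592)] rfl (by decide +kernel)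
theorem C1_c0_t57 : CovD 1 gC1 [(207877046272, 12026118144), (241594368, 80531456), (1090921693184, 8589934592)] :=
  covD_E kC1_eq (.l 0)
    [(207877046272, 12026118144), (241594368, 80531456), (1090921693184, 8589934592)] rfl (by decide +kernel)
end

mutual
theorem C1_c0_t58 : CovD 1 gC1 [(207877046272, 12026118144), (483188736, 161062912), (1082331758592, 17179869184)] :=
  covD_E kC1_eq (.l 0)
    [(207877046272, 12026118144), (483188736, 161062912), (1082331758592, 17179869184)] rfl (by decide +kernel)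
theorem C1_c0_t59 : CovD 1 gC1 [(207877046272, 12026118144), (966377472, 322125824), (1065151889408, 34359738368)] :=
  covD_E kC1_eq (.l 0)
    [(207877046272, 12026118144), (966377472, 322125824), (1065151889408, 34359738368)] rfl (by decide +kernel)
end

mutual
theorem C1_c0_t60 : CovD 1 gC1 [(207877046272, 12026118144), (1932754944, 644251648), (1030792151040, 68719476736)] :=
  covD_E kC1_eq (.l 0)
    [(207877046272, 12026118144), (1932754944, 644251648), (1030792151040, 68719476736)] rfl (by decide +kernel)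
theorem C1_c0_t61 : CovD 1 gC1 [(207877046272, 12026118144), (3865509888, 1288503296), (1030792151040, 68719476736)] :=
  covD_E kC1_eq (.l 0)
    [(207877046272, 12026118144), (3865509888, 1288503296), (1030792151040, 68719476736)] rfl (by decide +kernel)
end

mutual
theorem C1_c0_t62 : CovD 1 gC1 [(207877046272, 12026118144), (7731019776, 2577006592), (1030792151040, 68719476736)] :=
  covD_E kC1_eq (.l 0)
    [(207877046272, 12026118144), (7731019776, 2577006592), (1030792151040, 68719476736)] rfl (by decide +kernel)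
theorem C1_c0_t63 : CovD 1 gC1 [(195850928128, 24052236288), (15462039552, 5154013184), (824633720832, 274877906944)] :=
  covD_E kC1_eq (.n 2 (.n 2 (.l 0) (.n 0 (.l 0) (.l 0))) (.n 0 (.n 2 (.l 0) (.l 0)) (.n 2 (.l 0) (.l 0))))
    [(195850928128, 24052236288), (15462039552, 5154013184), (824633720832, 274877906944)] rfl (by decide +kernel)
end

mutual
theorem C1_c0_t64 : CovD 1 gC1 [(195850928128, 24052236288), (30924079104, 10308026368), (549755813888, 549755813888)] :=
  covD_E kC1_eq (.n 2 (.n 2 (.n 2 (.l 0) (.l 0)) (.n 2 (.l 0) (.l 0))) (.n 0 (.n 2 (.n 1 (.l 0) (.l 0)) (.n 2 (.l 0) (.n 1 (.l 0) (.l 0)))) (.n 2 (.n 2 (.l 0) (.l 0)) (.n 1 (.n 2 (.l 0) (.l 0)) (.n 0 (.l 0) (.l 0))))))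
    [(195850928128, 24052236288), (30924079104, 10308026368), (549755813888, 549755813888)] rfl (by decide +kernel)
theorem C1_c0_t65 : CovD 1 gC1 [(195850928128, 24052236288), (61848158208, 20616052736), (549755813888, 549755813888)] :=
  covD_E kC1_eq (.n 1 (.n 2 (.n 0 (.n 2 (.l 0) (.l 0)) (.n 2 (.l 0) (.l 0))) (.n 2 (.n 0 (.l 0) (.l 0)) (.n 2 (.l 0) (.n 0 (.l 0) (.l 0))))) (.n 2 (.n 2 (.l 0) (.l 0)) (.n 0 (.n 2 (.l 0) (.l 0)) (.n 2 (.l 0) (.l 0)))))
    [(195850928128, 24052236288), (61848158208, 20616052736), (549755813888, 549755813888)] rfl (by decide +kernel)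
end

theorem C1_c0_t66 : CovD 1 gC1 [(195850928128, 24052236288), (123696316416, 41232105472), (549755813888, 549755813888)] :=
  covD_E kC1_eq (.n 2 (.n 0 (.n 2 (.l 0) (.l 0)) (.n 2 (.l 0) (.l 0))) (.n 1 (.n 0 (.n 2 (.l 0) (.l 0)) (.n 2 (.l 0) (.l 0))) (.n 2 (.l 0) (.n 0 (.l 0) (.l 0)))))
    [(195850928128, 24052236288), (123696316416, 41232105472), (549755813888, 549755813888)] rfl (by decide +kernel)

theorem A1_c0_t11 : CovD 1 gA1 [(183824809984, 12026118144), (82464210944, 82464210944), (150323855360, 21474836480)] :=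
  covD_split 2 (by decide +kernel) A1_c0_t12 A1_c0_t13

theorem A1_c0_t9 : CovD 1 gA1 [(183824809984, 12026118144), (82464210944, 82464210944), (128849018880, 42949672960)] :=
  covD_split 2 (by decide +kernel) A1_c0_t10 A1_c0_t11

theorem A1_c0_t7 : CovD 1 gA1 [(183824809984, 12026118144), (82464210944, 82464210944), (85899345920, 85899345920)] :=
  covD_split 2 (by decide +kernel) A1_c0_t8 A1_c0_t9

theorem A1_c0_t16 : CovD 1 gA1 [(183824809984, 12026118144), (20616052736, 20616052736), (257698037760, 85899345920)] :=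
  covD_split 1 (by decide +kernel) A1_c0_t17 A1_c0_t18

theorem A1_c0_t15 : CovD 1 gA1 [(183824809984, 12026118144), (41232105472, 41232105472), (257698037760, 85899345920)] :=
  covD_split 1 (by decide +kernel) A1_c0_t16 A1_c0_t19

theorem A1_c0_t14 : CovD 1 gA1 [(183824809984, 12026118144), (82464210944, 82464210944), (257698037760, 85899345920)] :=
  covD_split 1 (by decide +kernel) A1_c0_t15 A1_c0_t20

theorem A1_c0_t6 : CovD 1 gA1 [(183824809984, 12026118144), (82464210944, 82464210944), (171798691840, 171798691840)] :=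
  covD_split 2 (by decide +kernel) A1_c0_t7 A1_c0_t14

theorem A1_c0_t22 : CovD 1 gA1 [(183824809984, 12026118144), (41232105472, 41232105472), (515396075520, 171798691840)] :=
  covD_split 1 (by decide +kernel) A1_c0_t23 A1_c0_t24

theorem A1_c0_t21 : CovD 1 gA1 [(183824809984, 12026118144), (82464210944, 82464210944), (515396075520, 171798691840)] :=
  covD_split 1 (by decide +kernel) A1_c0_t22 A1_c0_t25

theorem A1_c0_t5 : CovD 1 gA1 [(183824809984, 12026118144), (82464210944, 82464210944), (343597383680, 343597383680)] :=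
  covD_split 2 (by decide +kernel) A1_c0_t6 A1_c0_t21

theorem A1_c0_t27 : CovD 1 gA1 [(183824809984, 12026118144), (41232105472, 41232105472), (1030792151040, 343597383680)] :=
  covD_split 2 (by decide +kernel) A1_c0_t28 A1_c0_t29

theorem A1_c0_t30 : CovD 1 gA1 [(183824809984, 12026118144), (123696316416, 41232105472), (1030792151040, 343597383680)] :=
  covD_split 1 (by decide +kernel) A1_c0_t31 A1_c0_t32

theorem A1_c0_t26 : CovD 1 gA1 [(183824809984, 12026118144), (82464210944, 82464210944), (1030792151040, 343597383680)] :=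
  covD_split 1 (by decide +kernel) A1_c0_t27 A1_c0_t30

theorem A1_c0_t4 : CovD 1 gA1 [(183824809984, 12026118144), (82464210944, 82464210944), (687194767360, 687194767360)] :=
  covD_split 2 (by decide +kernel) A1_c0_t5 A1_c0_t26

theorem A1_c0_t33 : CovD 1 gA1 [(183824809984, 12026118144), (82464210944, 82464210944), (2061584302080, 687194767360)] :=
  covD_split 1 (by decide +kernel) A1_c0_t34 A1_c0_t35

theorem A1_c0_t3 : CovD 1 gA1 [(183824809984, 12026118144), (82464210944, 82464210944), (1374389534720, 1374389534720)] :=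
  covD_split 2 (by decide +kernel) A1_c0_t4 A1_c0_t33

theorem A1_c0_t38 : CovD 1 gA1 [(183824809984, 12026118144), (123696316416, 41232105472), (4123168604160, 1374389534720)] :=
  covD_split 0 (by decide +kernel) A1_c0_t39 A1_c0_t40

theorem A1_c0_t36 : CovD 1 gA1 [(183824809984, 12026118144), (82464210944, 82464210944), (4123168604160, 1374389534720)] :=
  covD_split 1 (by decide +kernel) A1_c0_t37 A1_c0_t38

theorem A1_c0_t2 : CovD 1 gA1 [(183824809984, 12026118144), (82464210944, 82464210944), (2748779069440, 2748779069440)] :=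
  covD_split 2 (by decide +kernel) A1_c0_t3 A1_c0_t36

theorem A1_c0_t50 : CovD 1 gA1 [(207877046272, 12026118144), (82464210944, 82464210944), (150323855360, 21474836480)] :=
  covD_split 2 (by decide +kernel) A1_c0_t51 A1_c0_t52

theorem A1_c0_t48 : CovD 1 gA1 [(207877046272, 12026118144), (82464210944, 82464210944), (128849018880, 42949672960)] :=
  covD_split 2 (by decide +kernel) A1_c0_t49 A1_c0_t50

theorem A1_c0_t46 : CovD 1 gA1 [(207877046272, 12026118144), (82464210944, 82464210944), (85899345920, 85899345920)] :=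
  covD_split 2 (by decide +kernel) A1_c0_t47 A1_c0_t48

theorem A1_c0_t55 : CovD 1 gA1 [(207877046272, 12026118144), (20616052736, 20616052736), (257698037760, 85899345920)] :=
  covD_split 1 (by decide +kernel) A1_c0_t56 A1_c0_t57

theorem A1_c0_t54 : CovD 1 gA1 [(207877046272, 12026118144), (41232105472, 41232105472), (257698037760, 85899345920)] :=
  covD_split 1 (by decide +kernel) A1_c0_t55 A1_c0_t58

theorem A1_c0_t53 : CovD 1 gA1 [(207877046272, 12026118144), (82464210944, 82464210944), (257698037760, 85899345920)] :=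
  covD_split 1 (by decide +kernel) A1_c0_t54 A1_c0_t59

theorem A1_c0_t45 : CovD 1 gA1 [(207877046272, 12026118144), (82464210944, 82464210944), (171798691840, 171798691840)] :=
  covD_split 2 (by decide +kernel) A1_c0_t46 A1_c0_t53

theorem A1_c0_t61 : CovD 1 gA1 [(207877046272, 12026118144), (41232105472, 41232105472), (515396075520, 171798691840)] :=
  covD_split 1 (by decide +kernel) A1_c0_t62 A1_c0_t63

theorem A1_c0_t60 : CovD 1 gA1 [(207877046272, 12026118144), (82464210944, 82464210944), (515396075520, 171798691840)] :=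
  covD_split 1 (by decide +kernel) A1_c0_t61 A1_c0_t64

theorem A1_c0_t44 : CovD 1 gA1 [(207877046272, 12026118144), (82464210944, 82464210944), (343597383680, 343597383680)] :=
  covD_split 2 (by decide +kernel) A1_c0_t45 A1_c0_t60

theorem A1_c0_t66 : CovD 1 gA1 [(207877046272, 12026118144), (41232105472, 41232105472), (1030792151040, 343597383680)] :=
  covD_split 1 (by decide +kernel) A1_c0_t67 A1_c0_t68

theorem A1_c0_t65 : CovD 1 gA1 [(207877046272, 12026118144), (82464210944, 82464210944), (1030792151040, 343597383680)] :=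
  covD_split 1 (by decide +kernel) A1_c0_t66 A1_c0_t69

theorem A1_c0_t43 : CovD 1 gA1 [(207877046272, 12026118144), (82464210944, 82464210944), (687194767360, 687194767360)] :=
  covD_split 2 (by decide +kernel) A1_c0_t44 A1_c0_t65

theorem A1_c0_t70 : CovD 1 gA1 [(207877046272, 12026118144), (82464210944, 82464210944), (2061584302080, 687194767360)] :=
  covD_split 1 (by decide +kernel) A1_c0_t71 A1_c0_t72

theorem A1_c0_t42 : CovD 1 gA1 [(207877046272, 12026118144), (82464210944, 82464210944), (1374389534720, 1374389534720)] :=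
  covD_split 2 (by decide +kernel) A1_c0_t43 A1_c0_t70

theorem A1_c0_t73 : CovD 1 gA1 [(207877046272, 12026118144), (82464210944, 82464210944), (4123168604160, 1374389534720)] :=
  covD_split 1 (by decide +kernel) A1_c0_t74 A1_c0_t75

theorem A1_c0_t41 : CovD 1 gA1 [(207877046272, 12026118144), (82464210944, 82464210944), (2748779069440, 2748779069440)] :=
  covD_split 2 (by decide +kernel) A1_c0_t42 A1_c0_t73

theorem A1_c0_t1 : CovD 1 gA1 [(195850928128, 24052236288), (82464210944, 82464210944), (2748779069440, 2748779069440)] :=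
  covD_split 0 (by decide +kernel) A1_c0_t2 A1_c0_t41

theorem A1_c0_t76 : CovD 1 gA1 [(195850928128, 24052236288), (82464210944, 82464210944), (8246337208320, 2748779069440)] :=
  covD_split 0 (by decide +kernel) A1_c0_t77 A1_c0_t78

theorem A1_c0 : CovD 1 gA1 [(195850928128, 24052236288), (82464210944, 82464210944), (5497558138880, 5497558138880)] :=
  covD_split 2 (by decide +kernel) A1_c0_t1 A1_c0_t76

theorem B1_c0_t1 : CovD 1 gB1 [(195850928128, 24052236288), (41232105472, 41232105472), (54975791104, 54975791104)] :=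
  covD_split 2 (by decide +kernel) B1_c0_t2 B1_c0_t3

theorem B1_c0_t5 : CovD 1 gB1 [(195850928128, 24052236288), (103080263680, 20616052736), (54975791104, 54975791104)] :=
  covD_split 0 (by decide +kernel) B1_c0_t6 B1_c0_t7

theorem B1_c0_t9 : CovD 1 gB1 [(195850928128, 24052236288), (144312369152, 20616052736), (27487895552, 27487895552)] :=
  covD_split 2 (by decide +kernel) B1_c0_t10 B1_c0_t11

theorem B1_c0_t8 : CovD 1 gB1 [(195850928128, 24052236288), (144312369152, 20616052736), (54975791104, 54975791104)] :=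
  covD_split 2 (by decide +kernel) B1_c0_t9 B1_c0_t12

theorem B1_c0_t4 : CovD 1 gB1 [(195850928128, 24052236288), (123696316416, 41232105472), (54975791104, 54975791104)] :=
  covD_split 1 (by decide +kernel) B1_c0_t5 B1_c0_t8

theorem B1_c0 : CovD 1 gB1 [(195850928128, 24052236288), (82464210944, 82464210944), (54975791104, 54975791104)] :=
  covD_split 1 (by decide +kernel) B1_c0_t1 B1_c0_t4

theorem C1_c0_t27 : CovD 1 gC1 [(183824809984, 12026118144), (80531456, 80531456), (1097364144128, 2147483648)] :=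
  covD_split 2 (by decide +kernel) C1_c0_t28 C1_c0_t29

theorem C1_c0_t25 : CovD 1 gC1 [(183824809984, 12026118144), (80531456, 80531456), (1095216660480, 4294967296)] :=
  covD_split 2 (by decide +kernel) C1_c0_t26 C1_c0_t27

theorem C1_c0_t23 : CovD 1 gC1 [(183824809984, 12026118144), (80531456, 80531456), (1090921693184, 8589934592)] :=
  covD_split 2 (by decide +kernel) C1_c0_t24 C1_c0_t25

theorem C1_c0_t21 : CovD 1 gC1 [(183824809984, 12026118144), (80531456, 80531456), (1082331758592, 17179869184)] :=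
  covD_split 2 (by decide +kernel) C1_c0_t22 C1_c0_t23

theorem C1_c0_t19 : CovD 1 gC1 [(183824809984, 12026118144), (80531456, 80531456), (1065151889408, 34359738368)] :=
  covD_split 2 (by decide +kernel) C1_c0_t20 C1_c0_t21

theorem C1_c0_t18 : CovD 1 gC1 [(183824809984, 12026118144), (161062912, 161062912), (1065151889408, 34359738368)] :=
  covD_split 1 (by decide +kernel) C1_c0_t19 C1_c0_t30

theorem C1_c0_t17 : CovD 1 gC1 [(183824809984, 12026118144), (322125824, 322125824), (1065151889408, 34359738368)] :=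
  covD_split 1 (by decide +kernel) C1_c0_t18 C1_c0_t31

theorem C1_c0_t16 : CovD 1 gC1 [(183824809984, 12026118144), (644251648, 644251648), (1065151889408, 34359738368)] :=
  covD_split 1 (by decide +kernel) C1_c0_t17 C1_c0_t32

theorem C1_c0_t14 : CovD 1 gC1 [(183824809984, 12026118144), (644251648, 644251648), (1030792151040, 68719476736)] :=
  covD_split 2 (by decide +kernel) C1_c0_t15 C1_c0_t16

theorem C1_c0_t13 : CovD 1 gC1 [(183824809984, 12026118144), (1288503296, 1288503296), (1030792151040, 68719476736)] :=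
  covD_split 1 (by decide +kernel) C1_c0_t14 C1_c0_t33

theorem C1_c0_t12 : CovD 1 gC1 [(183824809984, 12026118144), (2577006592, 2577006592), (1030792151040, 68719476736)] :=
  covD_split 1 (by decide +kernel) C1_c0_t13 C1_c0_t34

theorem C1_c0_t11 : CovD 1 gC1 [(183824809984, 12026118144), (5154013184, 5154013184), (1030792151040, 68719476736)] :=
  covD_split 1 (by decide +kernel) C1_c0_t12 C1_c0_t35

theorem C1_c0_t9 : CovD 1 gC1 [(183824809984, 12026118144), (5154013184, 5154013184), (962072674304, 137438953472)] :=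
  covD_split 2 (by decide +kernel) C1_c0_t10 C1_c0_t11

theorem C1_c0_t7 : CovD 1 gC1 [(183824809984, 12026118144), (5154013184, 5154013184), (824633720832, 274877906944)] :=
  covD_split 2 (by decide +kernel) C1_c0_t8 C1_c0_t9

theorem C1_c0_t53 : CovD 1 gC1 [(207877046272, 12026118144), (40265728, 40265728), (1090921693184, 8589934592)] :=
  covD_split 1 (by decide +kernel) C1_c0_t54 C1_c0_t55

theorem C1_c0_t52 : CovD 1 gC1 [(207877046272, 12026118144), (80531456, 80531456), (1090921693184, 8589934592)] :=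
  covD_split 1 (by decide +kernel) C1_c0_t53 C1_c0_t56

theorem C1_c0_t51 : CovD 1 gC1 [(207877046272, 12026118144), (161062912, 161062912), (1090921693184, 8589934592)] :=
  covD_split 1 (by decide +kernel) C1_c0_t52 C1_c0_t57

theorem C1_c0_t49 : CovD 1 gC1 [(207877046272, 12026118144), (161062912, 161062912), (1082331758592, 17179869184)] :=
  covD_split 2 (by decide +kernel) C1_c0_t50 C1_c0_t51

theorem C1_c0_t48 : CovD 1 gC1 [(207877046272, 12026118144), (322125824, 322125824), (1082331758592, 17179869184)] :=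
  covD_split 1 (by decide +kernel) C1_c0_t49 C1_c0_t58

theorem C1_c0_t46 : CovD 1 gC1 [(207877046272, 12026118144), (322125824, 322125824), (1065151889408, 34359738368)] :=
  covD_split 2 (by decide +kernel) C1_c0_t47 C1_c0_t48

theorem C1_c0_t45 : CovD 1 gC1 [(207877046272, 12026118144), (644251648, 644251648), (1065151889408, 34359738368)] :=
  covD_split 1 (by decide +kernel) C1_c0_t46 C1_c0_t59

theorem C1_c0_t43 : CovD 1 gC1 [(207877046272, 12026118144), (644251648, 644251648), (1030792151040, 68719476736)] :=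
  covD_split 2 (by decide +kernel) C1_c0_t44 C1_c0_t45

theorem C1_c0_t42 : CovD 1 gC1 [(207877046272, 12026118144), (1288503296, 1288503296), (1030792151040, 68719476736)] :=
  covD_split 1 (by decide +kernel) C1_c0_t43 C1_c0_t60

theorem C1_c0_t41 : CovD 1 gC1 [(207877046272, 12026118144), (2577006592, 2577006592), (1030792151040, 68719476736)] :=
  covD_split 1 (by decide +kernel) C1_c0_t42 C1_c0_t61

theorem C1_c0_t40 : CovD 1 gC1 [(207877046272, 12026118144), (5154013184, 5154013184), (1030792151040, 68719476736)] :=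
  covD_split 1 (by decide +kernel) C1_c0_t41 C1_c0_t62

theorem C1_c0_t38 : CovD 1 gC1 [(207877046272, 12026118144), (5154013184, 5154013184), (962072674304, 137438953472)] :=
  covD_split 2 (by decide +kernel) C1_c0_t39 C1_c0_t40

theorem C1_c0_t36 : CovD 1 gC1 [(207877046272, 12026118144), (5154013184, 5154013184), (824633720832, 274877906944)] :=
  covD_split 2 (by decide +kernel) C1_c0_t37 C1_c0_t38

theorem C1_c0_t6 : CovD 1 gC1 [(195850928128, 24052236288), (5154013184, 5154013184), (824633720832, 274877906944)] :=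
  covD_split 0 (by decide +kernel) C1_c0_t7 C1_c0_t36

theorem C1_c0_t5 : CovD 1 gC1 [(195850928128, 24052236288), (10308026368, 10308026368), (824633720832, 274877906944)] :=
  covD_split 1 (by decide +kernel) C1_c0_t6 C1_c0_t63

theorem C1_c0_t3 : CovD 1 gC1 [(195850928128, 24052236288), (10308026368, 10308026368), (549755813888, 549755813888)] :=
  covD_split 2 (by decide +kernel) C1_c0_t4 C1_c0_t5

theorem C1_c0_t2 : CovD 1 gC1 [(195850928128, 24052236288), (20616052736, 20616052736), (549755813888, 549755813888)] :=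
  covD_split 1 (by decide +kernel) C1_c0_t3 C1_c0_t64

theorem C1_c0_t1 : CovD 1 gC1 [(195850928128, 24052236288), (41232105472, 41232105472), (549755813888, 549755813888)] :=
  covD_split 1 (by decide +kernel) C1_c0_t2 C1_c0_t65

theorem C1_c0 : CovD 1 gC1 [(195850928128, 24052236288), (82464210944, 82464210944), (549755813888, 549755813888)] :=
  covD_split 1 (by decide +kernel) C1_c0_t1 C1_c0_t66

end Pool.Agent.helper14.NR.E5a
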