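import Pool.Agent.helper14.NR.E5a.PN2

/-!
Generated: certificates.
-/

namespace Pool.Agent.helper14.NR.E5a

open Pool.Agent.helper31.IA (Z)
open Pool.Agent.helper31.IX (Op XOps runX Cov CovD cov_split covD_split)
open Pool.Agent.helper31.IC (TD)
open Pool.Agent.helper63.RG (reloc)
open Pool.Agent.helper63.NF hiding TD
open Pool.Agent.helper14.CF (xE covD_E)
open Pool.Agent.helper14.NR (share)

mutual
theorem A2_c0_t8 : CovD 1 gA2 [(183824809984, 12026118144), (41232105472, 41232105472), (85899345920, 85899345920)] :=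
  covD_E kA2_eq (.n 2 (.l 2) (.n 1 (.n 2 (.l 2) (.n 2 (.n 1 (.n 1 (.l 0) (.l 0)) (.n 1 (.l 0) (.l 0))) (.n 1 (.n 1 (.l 0) (.l 0)) (.n 1 (.l 0) (.l 0))))) (.n 2 (.l 2) (.n 1 (.n 2 (.l 0) (.l 0)) (.l 0)))))
    [(183824809984, 12026118144), (41232105472, 41232105472), (85899345920, 85899345920)] rfl (by decide +kernel)
theorem A2_c0_t11 : CovD 1 gA2 [(183824809984, 12026118144), (10308026368, 10308026368), (257698037760, 85899345920)] :=
  covD_E kA2_eq (.n 2 (.n 1 (.n 2 (.n 0 (.l 0) (.l 0)) (.l 0)) (.n 2 (.n 0 (.l 0) (.l 0)) (.l 0))) (.n 2 (.n 0 (.l 0) (.l 0)) (.l 0)))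
    [(183824809984, 12026118144), (10308026368, 10308026368), (257698037760, 85899345920)] rfl (by decide +kernel)
end

mutual
theorem A2_c0_t12 : CovD 1 gA2 [(183824809984, 12026118144), (30924079104, 10308026368), (257698037760, 85899345920)] :=
  covD_E kA2_eq (.n 2 (.n 2 (.n 2 (.n 0 (.l 0) (.l 0)) (.l 0)) (.n 0 (.l 0) (.l 0))) (.n 2 (.n 0 (.l 0) (.l 0)) (.l 0)))
    [(183824809984, 12026118144), (30924079104, 10308026368), (257698037760, 85899345920)] rfl (by decide +kernel)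
theorem A2_c0_t13 : CovD 1 gA2 [(183824809984, 12026118144), (61848158208, 20616052736), (257698037760, 85899345920)] :=
  covD_E kA2_eq (.n 1 (.n 2 (.n 1 (.n 2 (.l 0) (.l 0)) (.n 2 (.l 0) (.l 0))) (.n 2 (.l 0) (.l 0))) (.n 2 (.n 2 (.l 0) (.l 0)) (.n 2 (.l 0) (.l 0))))
    [(183824809984, 12026118144), (61848158208, 20616052736), (257698037760, 85899345920)] rfl (by decide +kernel)
end

mutual
theorem A2_c0_t15 : CovD 1 gA2 [(183824809984, 12026118144), (20616052736, 20616052736), (515396075520, 171798691840)] :=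
  covD_E kA2_eq (.n 2 (.n 1 (.n 2 (.n 2 (.l 0) (.l 0)) (.l 0)) (.n 2 (.n 2 (.l 0) (.l 0)) (.n 0 (.l 0) (.l 0)))) (.n 2 (.n 0 (.l 0) (.l 0)) (.l 0)))
    [(183824809984, 12026118144), (20616052736, 20616052736), (515396075520, 171798691840)] rfl (by decide +kernel)
theorem A2_c0_t16 : CovD 1 gA2 [(183824809984, 12026118144), (61848158208, 20616052736), (515396075520, 171798691840)] :=
  covD_E kA2_eq (.n 2 (.n 2 (.n 0 (.n 1 (.l 0) (.l 0)) (.n 1 (.l 0) (.l 0))) (.n 2 (.l 0) (.l 0))) (.n 2 (.n 0 (.l 0) (.l 0)) (.l 0)))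
    [(183824809984, 12026118144), (61848158208, 20616052736), (515396075520, 171798691840)] rfl (by decide +kernel)
end

mutual
theorem A2_c0_t17 : CovD 1 gA2 [(183824809984, 12026118144), (41232105472, 41232105472), (1030792151040, 343597383680)] :=
  covD_E kA2_eq (.n 2 (.n 2 (.n 1 (.n 2 (.l 0) (.l 0)) (.n 2 (.l 0) (.l 0))) (.n 2 (.n 0 (.l 0) (.l 0)) (.l 0))) (.n 0 (.n 2 (.l 0) (.l 0)) (.n 2 (.l 0) (.l 0))))
    [(183824809984, 12026118144), (41232105472, 41232105472), (1030792151040, 343597383680)] rfl (by decide +kernel)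
theorem A2_c0_t18 : CovD 1 gA2 [(183824809984, 12026118144), (41232105472, 41232105472), (2061584302080, 687194767360)] :=
  covD_E kA2_eq (.n 2 (.n 2 (.n 2 (.n 0 (.l 0) (.l 0)) (.l 0)) (.n 0 (.l 0) (.l 0))) (.n 0 (.n 2 (.l 0) (.l 0)) (.n 2 (.l 0) (.l 0))))
    [(183824809984, 12026118144), (41232105472, 41232105472), (2061584302080, 687194767360)] rfl (by decide +kernel)
end

mutual
theorem A2_c0_t19 : CovD 1 gA2 [(183824809984, 12026118144), (41232105472, 41232105472), (4123168604160, 1374389534720)] :=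
  covD_E kA2_eq (.n 2 (.n 2 (.n 2 (.l 0) (.l 0)) (.n 2 (.l 0) (.l 0))) (.n 2 (.n 0 (.n 0 (.n 2 (.l 0) (.n 2 (.l 0) (.n 1 (.l 0) (.l 1)))) (.n 2 (.l 0) (.l 0))) (.l 0)) (.n 2 (.n 0 (.n 0 (.l 1) (.l 1)) (.l 0)) (.l 1))))
    [(183824809984, 12026118144), (41232105472, 41232105472), (4123168604160, 1374389534720)] rfl (by decide +kernel)
theorem A2_c0_t24 : CovD 1 gA2 [(183824809984, 12026118144), (123696316416, 41232105472), (171798691840, 171798691840)] :=
  covD_E kA2_eq (.n 2 (.n 2 (.l 2) (.n 1 (.n 2 (.l 0) (.l 0)) (.l 0))) (.n 1 (.n 2 (.n 2 (.l 0) (.l 0)) (.n 2 (.l 0) (.l 0))) (.n 2 (.l 0) (.l 0))))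
    [(183824809984, 12026118144), (123696316416, 41232105472), (171798691840, 171798691840)] rfl (by decide +kernel)
end

mutual
theorem A2_c0_t25 : CovD 1 gA2 [(183824809984, 12026118144), (123696316416, 41232105472), (515396075520, 171798691840)] :=
  covD_E kA2_eq (.n 1 (.n 2 (.n 1 (.n 2 (.l 0) (.l 0)) (.n 2 (.l 0) (.l 0))) (.n 2 (.n 0 (.l 0) (.l 0)) (.l 0))) (.n 2 (.n 2 (.l 0) (.l 0)) (.n 2 (.l 0) (.l 0))))
    [(183824809984, 12026118144), (123696316416, 41232105472), (515396075520, 171798691840)] rfl (by decide +kernel)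
theorem A2_c0_t26 : CovD 1 gA2 [(183824809984, 12026118144), (123696316416, 41232105472), (1030792151040, 343597383680)] :=
  covD_E kA2_eq (.n 1 (.n 2 (.n 2 (.n 2 (.l 0) (.l 0)) (.n 0 (.l 0) (.l 0))) (.n 2 (.l 0) (.l 0))) (.n 2 (.n 0 (.n 2 (.l 0) (.l 0)) (.n 2 (.l 0) (.l 0))) (.n 2 (.l 0) (.l 0))))
    [(183824809984, 12026118144), (123696316416, 41232105472), (1030792151040, 343597383680)] rfl (by decide +kernel)
end

mutual
theorem A2_c0_t27 : CovD 1 gA2 [(183824809984, 12026118144), (123696316416, 41232105472), (2061584302080, 687194767360)] :=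
  covD_E kA2_eq (.n 2 (.n 2 (.n 2 (.n 0 (.l 0) (.l 0)) (.l 0)) (.n 0 (.l 0) (.l 0))) (.n 2 (.n 0 (.l 0) (.l 0)) (.l 0)))
    [(183824809984, 12026118144), (123696316416, 41232105472), (2061584302080, 687194767360)] rfl (by decide +kernel)
theorem A2_c0_t29 : CovD 1 gA2 [(177811750912, 6013059072), (123696316416, 41232105472), (4123168604160, 1374389534720)] :=
  covD_E kA2_eq (.n 2 (.n 2 (.l 0) (.n 2 (.l 0) (.l 0))) (.n 0 (.n 2 (.n 2 (.n 2 (.l 0) (.l 0)) (.n 2 (.n 0 (.n 2 (.l 0) (.l 1)) (.l 0)) (.l 1))) (.l 1)) (.n 2 (.n 2 (.l 0) (.n 1 (.l 0) (.l 0))) (.l 1))))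
    [(177811750912, 6013059072), (123696316416, 41232105472), (4123168604160, 1374389534720)] rfl (by decide +kernel)
end

mutual
theorem A2_c0_t30 : CovD 1 gA2 [(189837869056, 6013059072), (123696316416, 41232105472), (4123168604160, 1374389534720)] :=
  covD_E kA2_eq (.n 2 (.n 2 (.l 0) (.l 0)) (.n 2 (.n 0 (.l 0) (.l 0)) (.n 2 (.l 0) (.l 1))))
    [(189837869056, 6013059072), (123696316416, 41232105472), (4123168604160, 1374389534720)] rfl (by decide +kernel)
theorem A2_c0_t31 : CovD 1 gA2 [(183824809984, 12026118144), (82464210944, 82464210944), (8246337208320, 2748779069440)] :=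
  covD_E kA2_eq (.n 2 (.n 2 (.n 2 (.n 0 (.l 1) (.l 1)) (.l 1)) (.l 1)) (.n 2 (.l 1) (.l 1)))
    [(183824809984, 12026118144), (82464210944, 82464210944), (8246337208320, 2748779069440)] rfl (by decide +kernel)
end

mutual
theorem A2_c0_t40 : CovD 1 gA2 [(207877046272, 12026118144), (41232105472, 41232105472), (42949672960, 42949672960)] :=
  covD_E kA2_eq (.l 2)
    [(207877046272, 12026118144), (41232105472, 41232105472), (42949672960, 42949672960)] rfl (by decide +kernel)
theorem A2_c0_t41 : CovD 1 gA2 [(207877046272, 12026118144), (41232105472, 41232105472), (128849018880, 42949672960)] :=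
  covD_E kA2_eq (.n 1 (.n 2 (.l 2) (.n 2 (.n 1 (.n 0 (.n 1 (.l 0) (.l 0)) (.n 1 (.l 0) (.l 0))) (.n 1 (.n 0 (.l 0) (.l 0)) (.l 0))) (.n 1 (.n 1 (.l 0) (.l 0)) (.n 1 (.l 0) (.l 0))))) (.n 2 (.l 2) (.n 1 (.n 2 (.l 0) (.l 0)) (.l 0))))
    [(207877046272, 12026118144), (41232105472, 41232105472), (128849018880, 42949672960)] rfl (by decide +kernel)
end

mutual
theorem A2_c0_t44 : CovD 1 gA2 [(207877046272, 12026118144), (10308026368, 10308026368), (257698037760, 85899345920)] :=
  covD_E kA2_eq (.n 1 (.n 2 (.n 1 (.n 2 (.l 0) (.l 0)) (.n 2 (.l 0) (.l 0))) (.n 2 (.l 0) (.l 0))) (.n 2 (.n 2 (.n 0 (.l 0) (.l 0)) (.l 0)) (.n 2 (.l 0) (.l 0))))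
    [(207877046272, 12026118144), (10308026368, 10308026368), (257698037760, 85899345920)] rfl (by decide +kernel)
theorem A2_c0_t45 : CovD 1 gA2 [(207877046272, 12026118144), (30924079104, 10308026368), (257698037760, 85899345920)] :=
  covD_E kA2_eq (.n 1 (.n 2 (.n 2 (.n 0 (.l 0) (.l 0)) (.l 0)) (.n 2 (.l 0) (.l 0))) (.n 2 (.n 2 (.n 0 (.l 0) (.l 0)) (.l 0)) (.n 2 (.l 0) (.l 0))))
    [(207877046272, 12026118144), (30924079104, 10308026368), (257698037760, 85899345920)] rfl (by decide +kernel)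
end

mutual
theorem A2_c0_t46 : CovD 1 gA2 [(207877046272, 12026118144), (61848158208, 20616052736), (257698037760, 85899345920)] :=
  covD_E kA2_eq (.n 1 (.n 2 (.n 2 (.n 2 (.l 0) (.l 0)) (.n 0 (.l 0) (.l 0))) (.n 2 (.l 0) (.l 0))) (.n 2 (.n 2 (.l 0) (.l 0)) (.n 2 (.l 0) (.l 0))))
    [(207877046272, 12026118144), (61848158208, 20616052736), (257698037760, 85899345920)] rfl (by decide +kernel)
theorem A2_c0_t47 : CovD 1 gA2 [(207877046272, 12026118144), (123696316416, 41232105472), (171798691840, 171798691840)] :=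
  covD_E kA2_eq (.n 2 (.n 2 (.l 2) (.n 2 (.l 2) (.n 1 (.l 0) (.l 0)))) (.n 1 (.n 1 (.n 2 (.n 2 (.l 0) (.l 0)) (.n 2 (.l 0) (.l 0))) (.n 2 (.l 0) (.l 0))) (.n 0 (.n 2 (.l 0) (.l 0)) (.n 2 (.l 0) (.l 0)))))
    [(207877046272, 12026118144), (123696316416, 41232105472), (171798691840, 171798691840)] rfl (by decide +kernel)
end

mutual
theorem A2_c0_t50 : CovD 1 gA2 [(207877046272, 12026118144), (20616052736, 20616052736), (515396075520, 171798691840)] :=
  covD_E kA2_eq (.n 2 (.n 1 (.n 2 (.n 2 (.l 0) (.l 0)) (.n 0 (.l 0) (.l 0))) (.n 2 (.n 2 (.l 0) (.l 0)) (.n 0 (.l 0) (.l 0)))) (.n 2 (.n 1 (.l 0) (.l 0)) (.l 0)))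
    [(207877046272, 12026118144), (20616052736, 20616052736), (515396075520, 171798691840)] rfl (by decide +kernel)
theorem A2_c0_t51 : CovD 1 gA2 [(207877046272, 12026118144), (61848158208, 20616052736), (515396075520, 171798691840)] :=
  covD_E kA2_eq (.n 1 (.n 2 (.n 2 (.n 2 (.l 0) (.l 0)) (.n 0 (.l 0) (.l 0))) (.n 2 (.l 0) (.l 0))) (.n 2 (.n 0 (.n 2 (.l 0) (.l 0)) (.n 2 (.l 0) (.l 0))) (.n 2 (.l 0) (.l 0))))
    [(207877046272, 12026118144), (61848158208, 20616052736), (515396075520, 171798691840)] rfl (by decide +kernel)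
end

mutual
theorem A2_c0_t52 : CovD 1 gA2 [(207877046272, 12026118144), (123696316416, 41232105472), (515396075520, 171798691840)] :=
  covD_E kA2_eq (.n 1 (.n 2 (.n 1 (.n 2 (.l 0) (.l 0)) (.n 2 (.l 0) (.l 0))) (.n 2 (.n 0 (.l 0) (.l 0)) (.l 0))) (.n 2 (.n 2 (.n 0 (.l 0) (.l 0)) (.l 0)) (.n 2 (.l 0) (.l 0))))
    [(207877046272, 12026118144), (123696316416, 41232105472), (515396075520, 171798691840)] rfl (by decide +kernel)
theorem A2_c0_t54 : CovD 1 gA2 [(207877046272, 12026118144), (41232105472, 41232105472), (1030792151040, 343597383680)] :=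
  covD_E kA2_eq (.n 2 (.n 2 (.n 1 (.n 2 (.l 0) (.l 0)) (.n 2 (.l 0) (.l 0))) (.n 2 (.n 0 (.l 0) (.l 0)) (.l 0))) (.n 0 (.n 2 (.l 0) (.l 0)) (.n 2 (.l 0) (.l 0))))
    [(207877046272, 12026118144), (41232105472, 41232105472), (1030792151040, 343597383680)] rfl (by decide +kernel)
end

mutual
theorem A2_c0_t55 : CovD 1 gA2 [(207877046272, 12026118144), (123696316416, 41232105472), (1030792151040, 343597383680)] :=
  covD_E kA2_eq (.n 2 (.n 2 (.n 1 (.n 2 (.l 0) (.l 0)) (.n 2 (.l 0) (.l 0))) (.n 2 (.n 0 (.l 0) (.l 0)) (.l 0))) (.n 0 (.n 2 (.l 0) (.l 0)) (.n 2 (.l 0) (.l 0))))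
    [(207877046272, 12026118144), (123696316416, 41232105472), (1030792151040, 343597383680)] rfl (by decide +kernel)
theorem A2_c0_t56 : CovD 1 gA2 [(207877046272, 12026118144), (82464210944, 82464210944), (2061584302080, 687194767360)] :=
  covD_E kA2_eq (.n 1 (.n 2 (.n 2 (.n 2 (.n 0 (.l 0) (.l 0)) (.l 0)) (.n 0 (.l 0) (.l 0))) (.n 0 (.n 2 (.l 0) (.l 0)) (.n 2 (.l 0) (.l 0)))) (.n 2 (.n 2 (.n 2 (.l 0) (.l 0)) (.n 0 (.l 0) (.l 0))) (.n 2 (.n 0 (.l 0) (.l 0)) (.l 0))))
    [(207877046272, 12026118144), (82464210944, 82464210944), (2061584302080, 687194767360)] rfl (by decide +kernel)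
end

mutual
theorem A2_c0_t57 : CovD 1 gA2 [(207877046272, 12026118144), (82464210944, 82464210944), (4123168604160, 1374389534720)] :=
  covD_E kA2_eq (.n 1 (.n 2 (.n 2 (.n 2 (.l 0) (.l 0)) (.n 0 (.l 0) (.l 0))) (.n 0 (.n 2 (.l 0) (.l 0)) (.n 2 (.l 0) (.l 0)))) (.n 0 (.n 2 (.n 2 (.l 0) (.l 0)) (.n 2 (.l 0) (.l 0))) (.n 2 (.n 2 (.l 0) (.l 0)) (.n 1 (.l 0) (.l 0)))))
    [(207877046272, 12026118144), (82464210944, 82464210944), (4123168604160, 1374389534720)] rfl (by decide +kernel)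
theorem A2_c0_t58 : CovD 1 gA2 [(207877046272, 12026118144), (82464210944, 82464210944), (8246337208320, 2748779069440)] :=
  covD_E kA2_eq (.n 2 (.n 2 (.n 2 (.n 1 (.n 0 (.l 0) (.l 0)) (.l 1)) (.l 1)) (.n 0 (.l 1) (.l 1))) (.n 1 (.l 1) (.l 1)))
    [(207877046272, 12026118144), (82464210944, 82464210944), (8246337208320, 2748779069440)] rfl (by decide +kernel)
end

mutual
theorem B2_c0 : CovD 1 gB2 [(195850928128, 24052236288), (82464210944, 82464210944), (54975791104, 54975791104)] :=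
  covD_E kB2_eq (.n 2 (.n 2 (.n 2 (.l 1) (.n 0 (.l 1) (.l 1))) (.n 0 (.n 1 (.l 1) (.l 1)) (.n 0 (.l 1) (.l 1)))) (.n 0 (.n 0 (.n 2 (.l 1) (.l 1)) (.n 2 (.l 1) (.l 1))) (.n 0 (.n 2 (.l 1) (.l 1)) (.n 2 (.l 1) (.l 1)))))
    [(195850928128, 24052236288), (82464210944, 82464210944), (54975791104, 54975791104)] rfl (by decide +kernel)
theorem C2_c0_t4 : CovD 1 gC2 [(195850928128, 24052236288), (10308026368, 10308026368), (274877906944, 274877906944)] :=
  covD_E kC2_eq (.n 2 (.n 2 (.n 0 (.l 0) (.l 0)) (.n 1 (.n 0 (.l 0) (.l 0)) (.l 0))) (.n 1 (.n 0 (.n 2 (.l 0) (.l 0)) (.n 2 (.l 0) (.l 0))) (.n 2 (.l 0) (.l 0))))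
    [(195850928128, 24052236288), (10308026368, 10308026368), (274877906944, 274877906944)] rfl (by decide +kernel)
end

mutual
theorem C2_c0_t8 : CovD 1 gC2 [(183824809984, 12026118144), (5154013184, 5154013184), (687194767360, 137438953472)] :=
  covD_E kC2_eq (.n 2 (.l 0) (.l 0))
    [(183824809984, 12026118144), (5154013184, 5154013184), (687194767360, 137438953472)] rfl (by decide +kernel)
theorem C2_c0_t10 : CovD 1 gC2 [(183824809984, 12026118144), (5154013184, 5154013184), (893353197568, 68719476736)] :=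
  covD_E kC2_eq (.l 0)
    [(183824809984, 12026118144), (5154013184, 5154013184), (893353197568, 68719476736)] rfl (by decide +kernel)
end

mutual
theorem C2_c0_t11 : CovD 1 gC2 [(183824809984, 12026118144), (5154013184, 5154013184), (1030792151040, 68719476736)] :=
  covD_E kC2_eq (.n 1 (.n 1 (.n 1 (.n 2 (.l 0) (.n 2 (.l 0) (.n 2 (.l 0) (.n 2 (.l 0) (.n 2 (.l 0) (.n 0 (.n 0 (.n 0 (.l 1) (.l 1)) (.n 0 (.l 1) (.l 1))) (.n 0 (.n 0 (.l 1) (.l 1)) (.n 0 (.l 1) (.l 1))))))))) (.l 0)) (.l 0)) (.l 0))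
    [(183824809984, 12026118144), (5154013184, 5154013184), (1030792151040, 68719476736)] rfl (by decide +kernel)
theorem C2_c0_t13 : CovD 1 gC2 [(207877046272, 12026118144), (5154013184, 5154013184), (687194767360, 137438953472)] :=
  covD_E kC2_eq (.n 2 (.l 0) (.l 0))
    [(207877046272, 12026118144), (5154013184, 5154013184), (687194767360, 137438953472)] rfl (by decide +kernel)
end

mutual
theorem C2_c0_t14 : CovD 1 gC2 [(207877046272, 12026118144), (5154013184, 5154013184), (962072674304, 137438953472)] :=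
  covD_E kC2_eq (.n 2 (.l 0) (.n 1 (.n 1 (.n 1 (.n 2 (.l 0) (.n 2 (.l 0) (.n 2 (.l 0) (.n 2 (.l 0) (.n 0 (.n 0 (.n 0 (.l 1) (.l 1)) (.n 0 (.l 1) (.l 1))) (.n 0 (.n 0 (.l 1) (.l 1)) (.n 0 (.l 1) (.l 1)))))))) (.l 0)) (.l 0)) (.l 0)))
    [(207877046272, 12026118144), (5154013184, 5154013184), (962072674304, 137438953472)] rfl (by decide +kernel)
theorem C2_c0_t15 : CovD 1 gC2 [(195850928128, 24052236288), (15462039552, 5154013184), (824633720832, 274877906944)] :=
  covD_E kC2_eq (.n 2 (.n 2 (.l 0) (.n 0 (.l 0) (.l 0))) (.n 0 (.n 2 (.l 0) (.l 0)) (.n 2 (.l 0) (.l 0))))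
    [(195850928128, 24052236288), (15462039552, 5154013184), (824633720832, 274877906944)] rfl (by decide +kernel)
end

mutual
theorem C2_c0_t16 : CovD 1 gC2 [(195850928128, 24052236288), (30924079104, 10308026368), (549755813888, 549755813888)] :=
  covD_E kC2_eq (.n 2 (.n 2 (.n 2 (.l 0) (.l 0)) (.n 2 (.l 0) (.n 0 (.l 0) (.l 0)))) (.n 1 (.n 2 (.n 2 (.l 0) (.l 0)) (.n 0 (.n 2 (.l 0) (.l 0)) (.n 2 (.l 0) (.l 0)))) (.n 2 (.n 0 (.l 0) (.l 0)) (.n 2 (.l 0) (.n 0 (.l 0) (.l 0))))))
    [(195850928128, 24052236288), (30924079104, 10308026368), (549755813888, 549755813888)] rfl (by decide +kernel)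
theorem C2_c0_t17 : CovD 1 gC2 [(195850928128, 24052236288), (61848158208, 20616052736), (549755813888, 549755813888)] :=
  covD_E kC2_eq (.n 1 (.n 2 (.n 0 (.n 2 (.l 0) (.l 0)) (.n 2 (.l 0) (.l 0))) (.n 2 (.n 0 (.l 0) (.l 0)) (.n 2 (.l 0) (.n 0 (.l 0) (.l 0))))) (.n 2 (.n 2 (.l 0) (.l 0)) (.n 0 (.n 2 (.l 0) (.l 0)) (.n 2 (.l 0) (.l 0)))))
    [(195850928128, 24052236288), (61848158208, 20616052736), (549755813888, 549755813888)] rfl (by decide +kernel)
end

mutual
theorem C2_c0_t18 : CovD 1 gC2 [(195850928128, 24052236288), (123696316416, 41232105472), (549755813888, 549755813888)] :=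
  covD_E kC2_eq (.n 0 (.n 2 (.n 2 (.l 0) (.l 0)) (.n 1 (.n 2 (.l 0) (.l 0)) (.n 2 (.l 0) (.l 0)))) (.n 2 (.n 2 (.l 0) (.l 0)) (.n 1 (.n 2 (.l 0) (.l 0)) (.n 2 (.l 0) (.l 0)))))
    [(195850928128, 24052236288), (123696316416, 41232105472), (549755813888, 549755813888)] rfl (by decide +kernel)
theorem D2_c0 : CovD 1 gD2 [(195850928128, 24052236288), (82464210944, 82464210944), (863554764800, 863554764800)] :=
  covD_E kD2_eq (.n 0 (.n 2 (.n 2 (.l 0) (.l 0)) (.n 0 (.n 2 (.l 0) (.l 0)) (.n 2 (.l 0) (.l 0)))) (.n 2 (.n 2 (.l 0) (.l 0)) (.n 0 (.n 2 (.l 0) (.l 0)) (.n 2 (.l 0) (.l 0)))))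
    [(195850928128, 24052236288), (82464210944, 82464210944), (863554764800, 863554764800)] rfl (by decide +kernel)
end

mutual
theorem E2_c0_t1 : CovD 1 gE2 [(195850928128, 24052236288), (82464210944, 82464210944), (431777382400, 431777382400)] :=
  covD_E kE2_eq (.n 0 (.n 2 (.l 1) (.n 0 (.n 2 (.l 1) (.n 1 (.l 1) (.n 0 (.n 0 (.l 1) (.l 1)) (.l 1)))) (.n 1 (.l 1) (.l 1)))) (.n 2 (.l 1) (.n 1 (.l 1) (.l 1))))
    [(195850928128, 24052236288), (82464210944, 82464210944), (431777382400, 431777382400)] rfl (by decide +kernel)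
theorem E2_c0_t3 : CovD 1 gE2 [(183824809984, 12026118144), (82464210944, 82464210944), (1295332147200, 431777382400)] :=
  covD_E kE2_eq (.n 0 (.n 2 (.n 2 (.n 0 (.n 2 (.n 2 (.n 1 (.l 1) (.n 1 (.l 1) (.l 0))) (.l 0)) (.l 0)) (.n 2 (.n 1 (.l 0) (.l 0)) (.l 0))) (.l 0)) (.n 0 (.l 0) (.l 0))) (.n 2 (.n 2 (.n 2 (.l 0) (.l 0)) (.l 0)) (.n 0 (.l 0) (.l 0))))
    [(183824809984, 12026118144), (82464210944, 82464210944), (1295332147200, 431777382400)] rfl (by decide +kernel)
end

theorem E2_c0_t4 : CovD 1 gE2 [(207877046272, 12026118144), (82464210944, 82464210944), (1295332147200, 431777382400)] :=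
  covD_E kE2_eq (.n 2 (.n 2 (.l 0) (.l 0)) (.n 2 (.l 0) (.l 0)))
    [(207877046272, 12026118144), (82464210944, 82464210944), (1295332147200, 431777382400)] rfl (by decide +kernel)

theorem A2_c0_t10 : CovD 1 gA2 [(183824809984, 12026118144), (20616052736, 20616052736), (257698037760, 85899345920)] :=
  covD_split 1 (by decide +kernel) A2_c0_t11 A2_c0_t12

theorem A2_c0_t9 : CovD 1 gA2 [(183824809984, 12026118144), (41232105472, 41232105472), (257698037760, 85899345920)] :=
  covD_split 1 (by decide +kernel) A2_c0_t10 A2_c0_t13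

theorem A2_c0_t7 : CovD 1 gA2 [(183824809984, 12026118144), (41232105472, 41232105472), (171798691840, 171798691840)] :=
  covD_split 2 (by decide +kernel) A2_c0_t8 A2_c0_t9

theorem A2_c0_t14 : CovD 1 gA2 [(183824809984, 12026118144), (41232105472, 41232105472), (515396075520, 171798691840)] :=
  covD_split 1 (by decide +kernel) A2_c0_t15 A2_c0_t16

theorem A2_c0_t6 : CovD 1 gA2 [(183824809984, 12026118144), (41232105472, 41232105472), (343597383680, 343597383680)] :=
  covD_split 2 (by decide +kernel) A2_c0_t7 A2_c0_t14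

theorem A2_c0_t5 : CovD 1 gA2 [(183824809984, 12026118144), (41232105472, 41232105472), (687194767360, 687194767360)] :=
  covD_split 2 (by decide +kernel) A2_c0_t6 A2_c0_t17

theorem A2_c0_t4 : CovD 1 gA2 [(183824809984, 12026118144), (41232105472, 41232105472), (1374389534720, 1374389534720)] :=
  covD_split 2 (by decide +kernel) A2_c0_t5 A2_c0_t18

theorem A2_c0_t3 : CovD 1 gA2 [(183824809984, 12026118144), (41232105472, 41232105472), (2748779069440, 2748779069440)] :=
  covD_split 2 (by decide +kernel) A2_c0_t4 A2_c0_t19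

theorem A2_c0_t23 : CovD 1 gA2 [(183824809984, 12026118144), (123696316416, 41232105472), (343597383680, 343597383680)] :=
  covD_split 2 (by decide +kernel) A2_c0_t24 A2_c0_t25

theorem A2_c0_t22 : CovD 1 gA2 [(183824809984, 12026118144), (123696316416, 41232105472), (687194767360, 687194767360)] :=
  covD_split 2 (by decide +kernel) A2_c0_t23 A2_c0_t26

theorem A2_c0_t21 : CovD 1 gA2 [(183824809984, 12026118144), (123696316416, 41232105472), (1374389534720, 1374389534720)] :=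
  covD_split 2 (by decide +kernel) A2_c0_t22 A2_c0_t27

theorem A2_c0_t28 : CovD 1 gA2 [(183824809984, 12026118144), (123696316416, 41232105472), (4123168604160, 1374389534720)] :=
  covD_split 0 (by decide +kernel) A2_c0_t29 A2_c0_t30

theorem A2_c0_t20 : CovD 1 gA2 [(183824809984, 12026118144), (123696316416, 41232105472), (2748779069440, 2748779069440)] :=
  covD_split 2 (by decide +kernel) A2_c0_t21 A2_c0_t28

theorem A2_c0_t2 : CovD 1 gA2 [(183824809984, 12026118144), (82464210944, 82464210944), (2748779069440, 2748779069440)] :=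
  covD_split 1 (by decide +kernel) A2_c0_t3 A2_c0_t20

theorem A2_c0_t1 : CovD 1 gA2 [(183824809984, 12026118144), (82464210944, 82464210944), (5497558138880, 5497558138880)] :=
  covD_split 2 (by decide +kernel) A2_c0_t2 A2_c0_t31

theorem A2_c0_t39 : CovD 1 gA2 [(207877046272, 12026118144), (41232105472, 41232105472), (85899345920, 85899345920)] :=
  covD_split 2 (by decide +kernel) A2_c0_t40 A2_c0_t41

theorem A2_c0_t43 : CovD 1 gA2 [(207877046272, 12026118144), (20616052736, 20616052736), (257698037760, 85899345920)] :=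
  covD_split 1 (by decide +kernel) A2_c0_t44 A2_c0_t45

theorem A2_c0_t42 : CovD 1 gA2 [(207877046272, 12026118144), (41232105472, 41232105472), (257698037760, 85899345920)] :=
  covD_split 1 (by decide +kernel) A2_c0_t43 A2_c0_t46

theorem A2_c0_t38 : CovD 1 gA2 [(207877046272, 12026118144), (41232105472, 41232105472), (171798691840, 171798691840)] :=
  covD_split 2 (by decide +kernel) A2_c0_t39 A2_c0_t42

theorem A2_c0_t37 : CovD 1 gA2 [(207877046272, 12026118144), (82464210944, 82464210944), (171798691840, 171798691840)] :=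
  covD_split 1 (by decide +kernel) A2_c0_t38 A2_c0_t47

theorem A2_c0_t49 : CovD 1 gA2 [(207877046272, 12026118144), (41232105472, 41232105472), (515396075520, 171798691840)] :=
  covD_split 1 (by decide +kernel) A2_c0_t50 A2_c0_t51

theorem A2_c0_t48 : CovD 1 gA2 [(207877046272, 12026118144), (82464210944, 82464210944), (515396075520, 171798691840)] :=
  covD_split 1 (by decide +kernel) A2_c0_t49 A2_c0_t52

theorem A2_c0_t36 : CovD 1 gA2 [(207877046272, 12026118144), (82464210944, 82464210944), (343597383680, 343597383680)] :=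
  covD_split 2 (by decide +kernel) A2_c0_t37 A2_c0_t48

theorem A2_c0_t53 : CovD 1 gA2 [(207877046272, 12026118144), (82464210944, 82464210944), (1030792151040, 343597383680)] :=
  covD_split 1 (by decide +kernel) A2_c0_t54 A2_c0_t55

theorem A2_c0_t35 : CovD 1 gA2 [(207877046272, 12026118144), (82464210944, 82464210944), (687194767360, 687194767360)] :=
  covD_split 2 (by decide +kernel) A2_c0_t36 A2_c0_t53

theorem A2_c0_t34 : CovD 1 gA2 [(207877046272, 12026118144), (82464210944, 82464210944), (1374389534720, 1374389534720)] :=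
  covD_split 2 (by decide +kernel) A2_c0_t35 A2_c0_t56

theorem A2_c0_t33 : CovD 1 gA2 [(207877046272, 12026118144), (82464210944, 82464210944), (2748779069440, 2748779069440)] :=
  covD_split 2 (by decide +kernel) A2_c0_t34 A2_c0_t57

theorem A2_c0_t32 : CovD 1 gA2 [(207877046272, 12026118144), (82464210944, 82464210944), (5497558138880, 5497558138880)] :=
  covD_split 2 (by decide +kernel) A2_c0_t33 A2_c0_t58

theorem A2_c0 : CovD 1 gA2 [(195850928128, 24052236288), (82464210944, 82464210944), (5497558138880, 5497558138880)] :=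
  covD_split 0 (by decide +kernel) A2_c0_t1 A2_c0_t32

theorem C2_c0_t9 : CovD 1 gC2 [(183824809984, 12026118144), (5154013184, 5154013184), (962072674304, 137438953472)] :=
  covD_split 2 (by decide +kernel) C2_c0_t10 C2_c0_t11

theorem C2_c0_t7 : CovD 1 gC2 [(183824809984, 12026118144), (5154013184, 5154013184), (824633720832, 274877906944)] :=
  covD_split 2 (by decide +kernel) C2_c0_t8 C2_c0_t9

theorem C2_c0_t12 : CovD 1 gC2 [(207877046272, 12026118144), (5154013184, 5154013184), (824633720832, 274877906944)] :=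
  covD_split 2 (by decide +kernel) C2_c0_t13 C2_c0_t14

theorem C2_c0_t6 : CovD 1 gC2 [(195850928128, 24052236288), (5154013184, 5154013184), (824633720832, 274877906944)] :=
  covD_split 0 (by decide +kernel) C2_c0_t7 C2_c0_t12

theorem C2_c0_t5 : CovD 1 gC2 [(195850928128, 24052236288), (10308026368, 10308026368), (824633720832, 274877906944)] :=
  covD_split 1 (by decide +kernel) C2_c0_t6 C2_c0_t15

theorem C2_c0_t3 : CovD 1 gC2 [(195850928128, 24052236288), (10308026368, 10308026368), (549755813888, 549755813888)] :=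
  covD_split 2 (by decide +kernel) C2_c0_t4 C2_c0_t5

theorem C2_c0_t2 : CovD 1 gC2 [(195850928128, 24052236288), (20616052736, 20616052736), (549755813888, 549755813888)] :=
  covD_split 1 (by decide +kernel) C2_c0_t3 C2_c0_t16

theorem C2_c0_t1 : CovD 1 gC2 [(195850928128, 24052236288), (41232105472, 41232105472), (549755813888, 549755813888)] :=
  covD_split 1 (by decide +kernel) C2_c0_t2 C2_c0_t17

theorem C2_c0 : CovD 1 gC2 [(195850928128, 24052236288), (82464210944, 82464210944), (549755813888, 549755813888)] :=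
  covD_split 1 (by decide +kernel) C2_c0_t1 C2_c0_t18

theorem E2_c0_t2 : CovD 1 gE2 [(195850928128, 24052236288), (82464210944, 82464210944), (1295332147200, 431777382400)] :=
  covD_split 0 (by decide +kernel) E2_c0_t3 E2_c0_t4

theorem E2_c0 : CovD 1 gE2 [(195850928128, 24052236288), (82464210944, 82464210944), (863554764800, 863554764800)] :=
  covD_split 2 (by decide +kernel) E2_c0_t1 E2_c0_t2

end Pool.Agent.helper14.NR.E5a
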