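import Pool.Agent.helper14.NR.E5a.PN5

/-!
Generated: certificates.
-/

namespace Pool.Agent.helper14.NR.E5a

open Pool.Agent.helper31.IA (Z)
open Pool.Agent.helper31.IX (Op XOps runX Cov CovD cov_split covD_split)
open Pool.Agent.helper31.IC (TD)
open Pool.Agent.helper63.RG (reloc)
open Pool.Agent.helper63.NF hiding TD
open Pool.Agent.helper14.CF (xE covD_E)
open Pool.Agent.helper14.NR (share)

mutual
theorem A5_c0_t9 : CovD 1 gA5 [(183824809984, 12026118144), (20616052736, 20616052736), (85899345920, 85899345920)] :=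
  covD_E kA5_eq (.n 2 (.l 2) (.n 2 (.l 2) (.n 2 (.n 1 (.n 1 (.l 0) (.n 0 (.l 0) (.l 0))) (.n 1 (.n 0 (.l 0) (.l 0)) (.l 0))) (.n 1 (.n 1 (.l 0) (.l 0)) (.n 1 (.l 0) (.l 0))))))
    [(183824809984, 12026118144), (20616052736, 20616052736), (85899345920, 85899345920)] rfl (by decide +kernel)
theorem A5_c0_t10 : CovD 1 gA5 [(183824809984, 12026118144), (61848158208, 20616052736), (85899345920, 85899345920)] :=
  covD_E kA5_eq (.n 2 (.l 2) (.n 2 (.l 2) (.n 1 (.n 2 (.l 0) (.l 0)) (.l 0))))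
    [(183824809984, 12026118144), (61848158208, 20616052736), (85899345920, 85899345920)] rfl (by decide +kernel)
end

mutual
theorem A5_c0_t13 : CovD 1 gA5 [(183824809984, 12026118144), (10308026368, 10308026368), (257698037760, 85899345920)] :=
  covD_E kA5_eq (.n 2 (.n 1 (.n 2 (.n 0 (.l 0) (.l 0)) (.l 0)) (.n 2 (.n 0 (.l 0) (.l 0)) (.l 0))) (.n 2 (.n 0 (.l 0) (.l 0)) (.l 0)))
    [(183824809984, 12026118144), (10308026368, 10308026368), (257698037760, 85899345920)] rfl (by decide +kernel)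
theorem A5_c0_t14 : CovD 1 gA5 [(183824809984, 12026118144), (30924079104, 10308026368), (257698037760, 85899345920)] :=
  covD_E kA5_eq (.n 2 (.n 1 (.n 2 (.n 0 (.l 0) (.l 0)) (.l 0)) (.n 2 (.n 0 (.l 0) (.l 0)) (.l 0))) (.n 2 (.l 0) (.l 0)))
    [(183824809984, 12026118144), (30924079104, 10308026368), (257698037760, 85899345920)] rfl (by decide +kernel)
end

mutual
theorem A5_c0_t15 : CovD 1 gA5 [(183824809984, 12026118144), (61848158208, 20616052736), (257698037760, 85899345920)] :=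
  covD_E kA5_eq (.n 1 (.n 2 (.n 1 (.n 2 (.l 0) (.l 0)) (.n 2 (.l 0) (.l 0))) (.n 2 (.l 0) (.l 0))) (.n 2 (.n 2 (.l 0) (.l 0)) (.n 2 (.l 0) (.l 0))))
    [(183824809984, 12026118144), (61848158208, 20616052736), (257698037760, 85899345920)] rfl (by decide +kernel)
theorem A5_c0_t18 : CovD 1 gA5 [(207877046272, 12026118144), (41232105472, 41232105472), (42949672960, 42949672960)] :=
  covD_E kA5_eq (.l 2)
    [(207877046272, 12026118144), (41232105472, 41232105472), (42949672960, 42949672960)] rfl (by decide +kernel)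
end

mutual
theorem A5_c0_t20 : CovD 1 gA5 [(207877046272, 12026118144), (20616052736, 20616052736), (128849018880, 42949672960)] :=
  covD_E kA5_eq (.n 2 (.l 2) (.n 2 (.n 1 (.n 0 (.n 1 (.l 0) (.l 0)) (.n 1 (.l 0) (.l 0))) (.n 1 (.n 0 (.l 0) (.l 0)) (.l 0))) (.n 1 (.n 1 (.l 0) (.l 0)) (.n 1 (.l 0) (.l 0)))))
    [(207877046272, 12026118144), (20616052736, 20616052736), (128849018880, 42949672960)] rfl (by decide +kernel)
theorem A5_c0_t21 : CovD 1 gA5 [(207877046272, 12026118144), (61848158208, 20616052736), (128849018880, 42949672960)] :=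
  covD_E kA5_eq (.n 2 (.l 2) (.n 1 (.n 1 (.n 0 (.l 0) (.l 0)) (.l 0)) (.l 0)))
    [(207877046272, 12026118144), (61848158208, 20616052736), (128849018880, 42949672960)] rfl (by decide +kernel)
end

mutual
theorem A5_c0_t24 : CovD 1 gA5 [(207877046272, 12026118144), (10308026368, 10308026368), (257698037760, 85899345920)] :=
  covD_E kA5_eq (.n 1 (.n 2 (.n 2 (.n 0 (.l 0) (.l 0)) (.l 0)) (.n 2 (.l 0) (.l 0))) (.n 2 (.n 2 (.n 0 (.l 0) (.l 0)) (.l 0)) (.n 2 (.l 0) (.l 0))))
    [(207877046272, 12026118144), (10308026368, 10308026368), (257698037760, 85899345920)] rfl (by decide +kernel)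
theorem A5_c0_t25 : CovD 1 gA5 [(207877046272, 12026118144), (30924079104, 10308026368), (257698037760, 85899345920)] :=
  covD_E kA5_eq (.n 2 (.n 1 (.n 2 (.n 0 (.l 0) (.l 0)) (.l 0)) (.n 2 (.n 0 (.l 0) (.l 0)) (.l 0))) (.n 2 (.n 0 (.l 0) (.l 0)) (.l 0)))
    [(207877046272, 12026118144), (30924079104, 10308026368), (257698037760, 85899345920)] rfl (by decide +kernel)
end

mutual
theorem A5_c0_t26 : CovD 1 gA5 [(207877046272, 12026118144), (61848158208, 20616052736), (257698037760, 85899345920)] :=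
  covD_E kA5_eq (.n 1 (.n 2 (.n 2 (.n 2 (.l 0) (.l 0)) (.n 0 (.l 0) (.l 0))) (.n 2 (.n 0 (.l 0) (.l 0)) (.l 0))) (.n 2 (.n 2 (.l 0) (.l 0)) (.n 2 (.l 0) (.l 0))))
    [(207877046272, 12026118144), (61848158208, 20616052736), (257698037760, 85899345920)] rfl (by decide +kernel)
theorem A5_c0_t28 : CovD 1 gA5 [(195850928128, 24052236288), (123696316416, 41232105472), (85899345920, 85899345920)] :=
  covD_E kA5_eq (.n 2 (.l 2) (.n 1 (.n 2 (.n 2 (.l 2) (.n 0 (.l 0) (.l 0))) (.n 0 (.n 0 (.l 0) (.l 0)) (.n 0 (.l 0) (.l 0)))) (.n 0 (.n 0 (.l 0) (.l 0)) (.n 0 (.l 0) (.l 0)))))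
    [(195850928128, 24052236288), (123696316416, 41232105472), (85899345920, 85899345920)] rfl (by decide +kernel)
end

mutual
theorem A5_c0_t30 : CovD 1 gA5 [(183824809984, 12026118144), (123696316416, 41232105472), (257698037760, 85899345920)] :=
  covD_E kA5_eq (.n 1 (.n 1 (.n 0 (.n 2 (.l 0) (.l 0)) (.n 2 (.l 0) (.l 0))) (.n 2 (.l 0) (.l 0))) (.n 0 (.n 2 (.l 0) (.l 0)) (.n 2 (.l 0) (.l 0))))
    [(183824809984, 12026118144), (123696316416, 41232105472), (257698037760, 85899345920)] rfl (by decide +kernel)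
theorem A5_c0_t31 : CovD 1 gA5 [(207877046272, 12026118144), (123696316416, 41232105472), (257698037760, 85899345920)] :=
  covD_E kA5_eq (.n 1 (.n 1 (.n 2 (.n 2 (.l 0) (.l 0)) (.n 0 (.l 0) (.l 0))) (.n 2 (.l 0) (.l 0))) (.n 0 (.n 2 (.l 0) (.l 0)) (.n 2 (.l 0) (.l 0))))
    [(207877046272, 12026118144), (123696316416, 41232105472), (257698037760, 85899345920)] rfl (by decide +kernel)
end

mutual
theorem A5_c0_t35 : CovD 1 gA5 [(183824809984, 12026118144), (20616052736, 20616052736), (515396075520, 171798691840)] :=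
  covD_E kA5_eq (.n 0 (.n 2 (.n 1 (.n 2 (.l 0) (.l 0)) (.n 2 (.l 0) (.l 0))) (.n 2 (.l 0) (.l 0))) (.n 2 (.n 1 (.n 2 (.l 0) (.l 0)) (.n 2 (.l 0) (.l 0))) (.n 2 (.l 0) (.l 0))))
    [(183824809984, 12026118144), (20616052736, 20616052736), (515396075520, 171798691840)] rfl (by decide +kernel)
theorem A5_c0_t36 : CovD 1 gA5 [(183824809984, 12026118144), (61848158208, 20616052736), (515396075520, 171798691840)] :=
  covD_E kA5_eq (.n 1 (.n 2 (.n 2 (.n 0 (.l 0) (.l 0)) (.l 0)) (.n 2 (.l 0) (.l 0))) (.n 2 (.n 2 (.n 0 (.l 0) (.l 0)) (.l 0)) (.n 2 (.l 0) (.l 0))))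
    [(183824809984, 12026118144), (61848158208, 20616052736), (515396075520, 171798691840)] rfl (by decide +kernel)
end

mutual
theorem A5_c0_t37 : CovD 1 gA5 [(183824809984, 12026118144), (123696316416, 41232105472), (515396075520, 171798691840)] :=
  covD_E kA5_eq (.n 1 (.n 2 (.n 1 (.n 2 (.l 0) (.l 0)) (.n 2 (.l 0) (.l 0))) (.n 2 (.l 0) (.l 0))) (.n 2 (.n 2 (.l 0) (.l 0)) (.n 0 (.l 0) (.l 0))))
    [(183824809984, 12026118144), (123696316416, 41232105472), (515396075520, 171798691840)] rfl (by decide +kernel)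
theorem A5_c0_t40 : CovD 1 gA5 [(207877046272, 12026118144), (20616052736, 20616052736), (515396075520, 171798691840)] :=
  covD_E kA5_eq (.n 1 (.n 2 (.n 2 (.n 2 (.l 0) (.l 0)) (.n 0 (.l 0) (.l 0))) (.n 2 (.l 0) (.l 0))) (.n 2 (.n 2 (.n 2 (.l 0) (.l 0)) (.n 0 (.l 0) (.l 0))) (.n 2 (.l 0) (.l 0))))
    [(207877046272, 12026118144), (20616052736, 20616052736), (515396075520, 171798691840)] rfl (by decide +kernel)
end

mutual
theorem A5_c0_t41 : CovD 1 gA5 [(207877046272, 12026118144), (61848158208, 20616052736), (515396075520, 171798691840)] :=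
  covD_E kA5_eq (.n 1 (.n 2 (.n 0 (.n 2 (.l 0) (.l 0)) (.n 2 (.l 0) (.l 0))) (.n 2 (.l 0) (.l 0))) (.n 2 (.n 2 (.n 0 (.l 0) (.l 0)) (.l 0)) (.n 2 (.l 0) (.l 0))))
    [(207877046272, 12026118144), (61848158208, 20616052736), (515396075520, 171798691840)] rfl (by decide +kernel)
theorem A5_c0_t42 : CovD 1 gA5 [(207877046272, 12026118144), (123696316416, 41232105472), (515396075520, 171798691840)] :=
  covD_E kA5_eq (.n 1 (.n 2 (.n 1 (.n 2 (.l 0) (.l 0)) (.n 2 (.l 0) (.l 0))) (.n 2 (.l 0) (.l 0))) (.n 2 (.n 2 (.n 0 (.l 0) (.l 0)) (.l 0)) (.n 2 (.l 0) (.l 0))))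
    [(207877046272, 12026118144), (123696316416, 41232105472), (515396075520, 171798691840)] rfl (by decide +kernel)
end

mutual
theorem A5_c0_t45 : CovD 1 gA5 [(183824809984, 12026118144), (41232105472, 41232105472), (1030792151040, 343597383680)] :=
  covD_E kA5_eq (.n 1 (.n 2 (.n 2 (.n 2 (.l 0) (.l 0)) (.n 0 (.l 0) (.l 0))) (.n 2 (.l 0) (.l 0))) (.n 2 (.n 2 (.n 2 (.l 0) (.l 0)) (.n 0 (.l 0) (.l 0))) (.n 2 (.l 0) (.l 0))))
    [(183824809984, 12026118144), (41232105472, 41232105472), (1030792151040, 343597383680)] rfl (by decide +kernel)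
theorem A5_c0_t46 : CovD 1 gA5 [(183824809984, 12026118144), (123696316416, 41232105472), (1030792151040, 343597383680)] :=
  covD_E kA5_eq (.n 1 (.n 2 (.n 0 (.n 2 (.l 0) (.l 0)) (.n 2 (.l 0) (.l 0))) (.n 2 (.l 0) (.l 0))) (.n 2 (.n 2 (.n 0 (.l 0) (.l 0)) (.l 0)) (.n 0 (.l 0) (.l 0))))
    [(183824809984, 12026118144), (123696316416, 41232105472), (1030792151040, 343597383680)] rfl (by decide +kernel)
end

mutual
theorem A5_c0_t48 : CovD 1 gA5 [(207877046272, 12026118144), (41232105472, 41232105472), (1030792151040, 343597383680)] :=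
  covD_E kA5_eq (.n 1 (.n 2 (.n 2 (.n 2 (.l 0) (.l 0)) (.n 0 (.l 0) (.l 0))) (.n 2 (.l 0) (.l 0))) (.n 2 (.n 2 (.n 2 (.l 0) (.l 0)) (.n 0 (.l 0) (.l 0))) (.n 2 (.l 0) (.l 0))))
    [(207877046272, 12026118144), (41232105472, 41232105472), (1030792151040, 343597383680)] rfl (by decide +kernel)
theorem A5_c0_t49 : CovD 1 gA5 [(207877046272, 12026118144), (123696316416, 41232105472), (1030792151040, 343597383680)] :=
  covD_E kA5_eq (.n 1 (.n 2 (.n 0 (.n 2 (.l 0) (.l 0)) (.n 2 (.l 0) (.l 0))) (.n 2 (.l 0) (.l 0))) (.n 2 (.n 2 (.n 0 (.l 0) (.l 0)) (.l 0)) (.n 2 (.l 0) (.l 0))))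
    [(207877046272, 12026118144), (123696316416, 41232105472), (1030792151040, 343597383680)] rfl (by decide +kernel)
end

mutual
theorem A5_c0_t51 : CovD 1 gA5 [(183824809984, 12026118144), (82464210944, 82464210944), (2061584302080, 687194767360)] :=
  covD_E kA5_eq (.n 1 (.n 2 (.n 2 (.n 2 (.n 0 (.l 0) (.l 0)) (.l 0)) (.n 0 (.l 0) (.l 0))) (.n 2 (.n 0 (.l 0) (.l 0)) (.l 0))) (.n 2 (.n 2 (.n 2 (.l 0) (.l 0)) (.n 0 (.l 0) (.l 0))) (.n 2 (.n 0 (.l 0) (.l 0)) (.l 0))))
    [(183824809984, 12026118144), (82464210944, 82464210944), (2061584302080, 687194767360)] rfl (by decide +kernel)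
theorem A5_c0_t53 : CovD 1 gA5 [(207877046272, 12026118144), (41232105472, 41232105472), (2061584302080, 687194767360)] :=
  covD_E kA5_eq (.n 0 (.n 2 (.n 2 (.n 1 (.l 0) (.l 0)) (.l 0)) (.n 1 (.l 0) (.l 0))) (.n 2 (.n 2 (.n 1 (.l 0) (.l 0)) (.l 0)) (.n 1 (.l 0) (.l 0))))
    [(207877046272, 12026118144), (41232105472, 41232105472), (2061584302080, 687194767360)] rfl (by decide +kernel)
end

mutual
theorem A5_c0_t54 : CovD 1 gA5 [(207877046272, 12026118144), (123696316416, 41232105472), (2061584302080, 687194767360)] :=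
  covD_E kA5_eq (.n 2 (.n 1 (.n 2 (.n 0 (.l 0) (.l 0)) (.l 0)) (.n 2 (.l 0) (.l 0))) (.n 2 (.n 0 (.l 0) (.l 0)) (.l 0)))
    [(207877046272, 12026118144), (123696316416, 41232105472), (2061584302080, 687194767360)] rfl (by decide +kernel)
theorem A5_c0_t58 : CovD 1 gA5 [(183824809984, 12026118144), (41232105472, 41232105472), (3435973836800, 687194767360)] :=
  covD_E kA5_eq (.n 2 (.n 2 (.l 0) (.n 0 (.n 0 (.l 0) (.l 0)) (.l 0))) (.n 0 (.n 0 (.n 0 (.n 2 (.n 2 (.l 0) (.l 1)) (.l 1)) (.n 2 (.l 0) (.l 1))) (.n 2 (.l 0) (.l 0))) (.l 0)))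
    [(183824809984, 12026118144), (41232105472, 41232105472), (3435973836800, 687194767360)] rfl (by decide +kernel)
end

mutual
theorem A5_c0_t59 : CovD 1 gA5 [(183824809984, 12026118144), (41232105472, 41232105472), (4810363371520, 687194767360)] :=
  covD_E kA5_eq (.n 0 (.n 2 (.n 0 (.l 1) (.n 2 (.l 1) (.l 1))) (.l 1)) (.n 2 (.n 1 (.l 0) (.l 0)) (.n 0 (.l 1) (.l 0))))
    [(183824809984, 12026118144), (41232105472, 41232105472), (4810363371520, 687194767360)] rfl (by decide +kernel)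
theorem A5_c0_t61 : CovD 1 gA5 [(177811750912, 6013059072), (123696316416, 41232105472), (4123168604160, 1374389534720)] :=
  covD_E kA5_eq (.n 2 (.n 2 (.n 2 (.l 0) (.l 0)) (.n 0 (.n 0 (.n 2 (.n 2 (.l 0) (.l 0)) (.l 1)) (.n 2 (.l 0) (.n 2 (.l 0) (.l 0)))) (.n 2 (.l 0) (.l 0)))) (.n 2 (.n 0 (.l 1) (.n 2 (.n 0 (.l 1) (.l 0)) (.l 1))) (.l 1)))
    [(177811750912, 6013059072), (123696316416, 41232105472), (4123168604160, 1374389534720)] rfl (by decide +kernel)
end

mutual
theorem A5_c0_t62 : CovD 1 gA5 [(189837869056, 6013059072), (123696316416, 41232105472), (4123168604160, 1374389534720)] :=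
  covD_E kA5_eq (.n 2 (.n 2 (.l 0) (.l 0)) (.n 2 (.n 0 (.l 0) (.l 0)) (.n 2 (.l 0) (.l 0))))
    [(189837869056, 6013059072), (123696316416, 41232105472), (4123168604160, 1374389534720)] rfl (by decide +kernel)
theorem A5_c0_t63 : CovD 1 gA5 [(207877046272, 12026118144), (82464210944, 82464210944), (4123168604160, 1374389534720)] :=
  covD_E kA5_eq (.n 1 (.n 1 (.n 2 (.n 2 (.n 0 (.l 0) (.l 0)) (.l 0)) (.n 0 (.l 0) (.l 0))) (.n 2 (.n 2 (.l 0) (.l 0)) (.n 0 (.l 0) (.l 0)))) (.n 2 (.n 0 (.n 2 (.l 0) (.l 0)) (.n 2 (.l 0) (.l 0))) (.n 2 (.l 0) (.l 0))))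
    [(207877046272, 12026118144), (82464210944, 82464210944), (4123168604160, 1374389534720)] rfl (by decide +kernel)
end

mutual
theorem A5_c0_t65 : CovD 1 gA5 [(183824809984, 12026118144), (82464210944, 82464210944), (8246337208320, 2748779069440)] :=
  covD_E kA5_eq (.n 0 (.n 2 (.n 2 (.n 0 (.l 1) (.l 1)) (.l 1)) (.l 1)) (.n 1 (.n 2 (.n 2 (.n 2 (.l 1) (.l 1)) (.l 1)) (.l 1)) (.n 2 (.n 2 (.n 0 (.l 1) (.n 1 (.l 0) (.l 0))) (.l 1)) (.l 1))))
    [(183824809984, 12026118144), (82464210944, 82464210944), (8246337208320, 2748779069440)] rfl (by decide +kernel)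
theorem A5_c0_t66 : CovD 1 gA5 [(207877046272, 12026118144), (82464210944, 82464210944), (8246337208320, 2748779069440)] :=
  covD_E kA5_eq (.n 1 (.n 2 (.n 1 (.n 2 (.l 0) (.l 0)) (.n 2 (.l 0) (.l 0))) (.n 2 (.n 0 (.l 0) (.l 0)) (.l 0))) (.n 2 (.n 2 (.n 0 (.l 0) (.l 0)) (.l 0)) (.n 2 (.l 0) (.l 0))))
    [(207877046272, 12026118144), (82464210944, 82464210944), (8246337208320, 2748779069440)] rfl (by decide +kernel)
end

mutual
theorem B5_c0 : CovD 1 gB5 [(195850928128, 24052236288), (82464210944, 82464210944), (54975791104, 54975791104)] :=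
  covD_E kB5_eq (.n 0 (.n 2 (.l 1) (.n 1 (.l 1) (.l 1))) (.n 2 (.n 1 (.n 2 (.l 0) (.l 0)) (.n 2 (.l 0) (.l 0))) (.n 1 (.n 2 (.l 0) (.l 0)) (.n 2 (.l 0) (.l 0)))))
    [(195850928128, 24052236288), (82464210944, 82464210944), (54975791104, 54975791104)] rfl (by decide +kernel)
theorem C5_c0_t5 : CovD 1 gC5 [(183824809984, 12026118144), (5154013184, 5154013184), (549755813888, 549755813888)] :=
  covD_E kC5_eq (.n 2 (.n 2 (.n 2 (.l 0) (.l 0)) (.n 2 (.l 0) (.l 0))) (.n 2 (.n 2 (.l 0) (.l 0)) (.n 2 (.l 0) (.n 2 (.l 0) (.n 2 (.l 0) (.n 2 (.l 0) (.n 0 (.n 0 (.l 1) (.l 1)) (.l 1))))))))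
    [(183824809984, 12026118144), (5154013184, 5154013184), (549755813888, 549755813888)] rfl (by decide +kernel)
end

mutual
theorem C5_c0_t6 : CovD 1 gC5 [(207877046272, 12026118144), (5154013184, 5154013184), (549755813888, 549755813888)] :=
  covD_E kC5_eq (.n 2 (.n 2 (.n 2 (.l 0) (.l 0)) (.n 2 (.l 0) (.l 0))) (.n 2 (.n 2 (.l 0) (.l 0)) (.n 2 (.l 0) (.n 2 (.l 0) (.n 2 (.l 0) (.n 2 (.l 0) (.n 0 (.l 1) (.l 1))))))))
    [(207877046272, 12026118144), (5154013184, 5154013184), (549755813888, 549755813888)] rfl (by decide +kernel)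
theorem C5_c0_t8 : CovD 1 gC5 [(195850928128, 24052236288), (15462039552, 5154013184), (274877906944, 274877906944)] :=
  covD_E kC5_eq (.n 2 (.n 2 (.l 0) (.n 0 (.l 0) (.l 0))) (.n 0 (.n 2 (.l 0) (.l 0)) (.n 2 (.l 0) (.l 0))))
    [(195850928128, 24052236288), (15462039552, 5154013184), (274877906944, 274877906944)] rfl (by decide +kernel)
end

mutual
theorem C5_c0_t9 : CovD 1 gC5 [(195850928128, 24052236288), (15462039552, 5154013184), (824633720832, 274877906944)] :=
  covD_E kC5_eq (.n 0 (.n 2 (.n 2 (.l 0) (.l 0)) (.n 2 (.l 0) (.n 0 (.l 0) (.l 0)))) (.n 2 (.n 2 (.l 0) (.l 0)) (.n 2 (.l 0) (.n 0 (.l 0) (.l 0)))))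
    [(195850928128, 24052236288), (15462039552, 5154013184), (824633720832, 274877906944)] rfl (by decide +kernel)
theorem C5_c0_t11 : CovD 1 gC5 [(195850928128, 24052236288), (30924079104, 10308026368), (274877906944, 274877906944)] :=
  covD_E kC5_eq (.n 2 (.n 2 (.l 0) (.n 0 (.l 0) (.l 0))) (.n 0 (.n 2 (.l 0) (.l 0)) (.n 2 (.l 0) (.l 0))))
    [(195850928128, 24052236288), (30924079104, 10308026368), (274877906944, 274877906944)] rfl (by decide +kernel)
end

mutual
theorem C5_c0_t12 : CovD 1 gC5 [(195850928128, 24052236288), (30924079104, 10308026368), (824633720832, 274877906944)] :=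
  covD_E kC5_eq (.n 0 (.n 2 (.n 2 (.l 0) (.l 0)) (.n 1 (.n 2 (.l 0) (.l 0)) (.n 0 (.l 0) (.l 0)))) (.n 2 (.n 2 (.l 0) (.l 0)) (.n 1 (.n 2 (.l 0) (.n 0 (.l 0) (.l 0))) (.n 2 (.l 0) (.l 0)))))
    [(195850928128, 24052236288), (30924079104, 10308026368), (824633720832, 274877906944)] rfl (by decide +kernel)
theorem C5_c0_t14 : CovD 1 gC5 [(195850928128, 24052236288), (61848158208, 20616052736), (274877906944, 274877906944)] :=
  covD_E kC5_eq (.n 2 (.n 2 (.l 0) (.n 0 (.l 0) (.l 0))) (.n 0 (.n 1 (.l 0) (.l 0)) (.n 1 (.l 0) (.l 0))))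
    [(195850928128, 24052236288), (61848158208, 20616052736), (274877906944, 274877906944)] rfl (by decide +kernel)
end

mutual
theorem C5_c0_t15 : CovD 1 gC5 [(195850928128, 24052236288), (61848158208, 20616052736), (824633720832, 274877906944)] :=
  covD_E kC5_eq (.n 0 (.n 2 (.n 2 (.l 0) (.l 0)) (.n 1 (.n 2 (.l 0) (.l 0)) (.l 0))) (.n 1 (.n 2 (.n 0 (.l 0) (.l 0)) (.n 2 (.l 0) (.l 0))) (.n 2 (.l 0) (.l 0))))
    [(195850928128, 24052236288), (61848158208, 20616052736), (824633720832, 274877906944)] rfl (by decide +kernel)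
theorem C5_c0_t16 : CovD 1 gC5 [(195850928128, 24052236288), (123696316416, 41232105472), (549755813888, 549755813888)] :=
  covD_E kC5_eq (.n 0 (.n 2 (.n 2 (.l 0) (.n 0 (.l 0) (.l 0))) (.n 1 (.n 2 (.l 0) (.n 0 (.l 0) (.l 0))) (.n 2 (.l 0) (.l 0)))) (.n 2 (.n 2 (.l 0) (.n 0 (.l 0) (.l 0))) (.n 1 (.n 2 (.l 0) (.n 0 (.l 0) (.l 0))) (.n 2 (.l 0) (.l 0)))))
    [(195850928128, 24052236288), (123696316416, 41232105472), (549755813888, 549755813888)] rfl (by decide +kernel)
end

mutual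
theorem D5_c0_t1 : CovD 1 gD5 [(195850928128, 24052236288), (41232105472, 41232105472), (863554764800, 863554764800)] :=
  covD_E kD5_eq (.n 2 (.n 2 (.n 0 (.l 0) (.l 0)) (.n 2 (.l 0) (.l 0))) (.n 2 (.n 2 (.l 0) (.n 0 (.l 0) (.l 0))) (.n 0 (.n 2 (.n 2 (.l 0) (.l 0)) (.n 0 (.n 2 (.l 0) (.l 1)) (.l 1))) (.n 2 (.l 0) (.l 1)))))
    [(195850928128, 24052236288), (41232105472, 41232105472), (863554764800, 863554764800)] rfl (by decide +kernel)
theorem D5_c0_t2 : CovD 1 gD5 [(195850928128, 24052236288), (123696316416, 41232105472), (863554764800, 863554764800)] :=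
  covD_E kD5_eq (.n 2 (.n 2 (.n 0 (.l 0) (.l 0)) (.n 2 (.l 0) (.l 0))) (.n 0 (.n 2 (.n 2 (.l 0) (.l 0)) (.n 2 (.n 2 (.l 0) (.l 0)) (.n 0 (.n 2 (.l 0) (.l 1)) (.l 1)))) (.n 2 (.n 2 (.l 0) (.l 0)) (.n 2 (.l 0) (.l 1)))))
    [(195850928128, 24052236288), (123696316416, 41232105472), (863554764800, 863554764800)] rfl (by decide +kernel)
end

theorem E5_c0 : CovD 1 gE5 [(195850928128, 24052236288), (82464210944, 82464210944), (863554764800, 863554764800)] :=
  covD_E kE5_eq (.n 2 (.n 2 (.l 1) (.n 0 (.l 1) (.l 1))) (.n 0 (.n 2 (.l 1) (.n 2 (.l 1) (.n 1 (.l 1) (.l 1)))) (.n 2 (.l 1) (.n 0 (.l 1) (.l 1)))))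
    [(195850928128, 24052236288), (82464210944, 82464210944), (863554764800, 863554764800)] rfl (by decide +kernel)

theorem A5_c0_t8 : CovD 1 gA5 [(183824809984, 12026118144), (41232105472, 41232105472), (85899345920, 85899345920)] :=
  covD_split 1 (by decide +kernel) A5_c0_t9 A5_c0_t10

theorem A5_c0_t12 : CovD 1 gA5 [(183824809984, 12026118144), (20616052736, 20616052736), (257698037760, 85899345920)] :=
  covD_split 1 (by decide +kernel) A5_c0_t13 A5_c0_t14

theorem A5_c0_t11 : CovD 1 gA5 [(183824809984, 12026118144), (41232105472, 41232105472), (257698037760, 85899345920)] :=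
  covD_split 1 (by decide +kernel) A5_c0_t12 A5_c0_t15

theorem A5_c0_t7 : CovD 1 gA5 [(183824809984, 12026118144), (41232105472, 41232105472), (171798691840, 171798691840)] :=
  covD_split 2 (by decide +kernel) A5_c0_t8 A5_c0_t11

theorem A5_c0_t19 : CovD 1 gA5 [(207877046272, 12026118144), (41232105472, 41232105472), (128849018880, 42949672960)] :=
  covD_split 1 (by decide +kernel) A5_c0_t20 A5_c0_t21

theorem A5_c0_t17 : CovD 1 gA5 [(207877046272, 12026118144), (41232105472, 41232105472), (85899345920, 85899345920)] :=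
  covD_split 2 (by decide +kernel) A5_c0_t18 A5_c0_t19

theorem A5_c0_t23 : CovD 1 gA5 [(207877046272, 12026118144), (20616052736, 20616052736), (257698037760, 85899345920)] :=
  covD_split 1 (by decide +kernel) A5_c0_t24 A5_c0_t25

theorem A5_c0_t22 : CovD 1 gA5 [(207877046272, 12026118144), (41232105472, 41232105472), (257698037760, 85899345920)] :=
  covD_split 1 (by decide +kernel) A5_c0_t23 A5_c0_t26

theorem A5_c0_t16 : CovD 1 gA5 [(207877046272, 12026118144), (41232105472, 41232105472), (171798691840, 171798691840)] :=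
  covD_split 2 (by decide +kernel) A5_c0_t17 A5_c0_t22

theorem A5_c0_t6 : CovD 1 gA5 [(195850928128, 24052236288), (41232105472, 41232105472), (171798691840, 171798691840)] :=
  covD_split 0 (by decide +kernel) A5_c0_t7 A5_c0_t16

theorem A5_c0_t29 : CovD 1 gA5 [(195850928128, 24052236288), (123696316416, 41232105472), (257698037760, 85899345920)] :=
  covD_split 0 (by decide +kernel) A5_c0_t30 A5_c0_t31

theorem A5_c0_t27 : CovD 1 gA5 [(195850928128, 24052236288), (123696316416, 41232105472), (171798691840, 171798691840)] :=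
  covD_split 2 (by decide +kernel) A5_c0_t28 A5_c0_t29

theorem A5_c0_t5 : CovD 1 gA5 [(195850928128, 24052236288), (82464210944, 82464210944), (171798691840, 171798691840)] :=
  covD_split 1 (by decide +kernel) A5_c0_t6 A5_c0_t27

theorem A5_c0_t34 : CovD 1 gA5 [(183824809984, 12026118144), (41232105472, 41232105472), (515396075520, 171798691840)] :=
  covD_split 1 (by decide +kernel) A5_c0_t35 A5_c0_t36

theorem A5_c0_t33 : CovD 1 gA5 [(183824809984, 12026118144), (82464210944, 82464210944), (515396075520, 171798691840)] :=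
  covD_split 1 (by decide +kernel) A5_c0_t34 A5_c0_t37

theorem A5_c0_t39 : CovD 1 gA5 [(207877046272, 12026118144), (41232105472, 41232105472), (515396075520, 171798691840)] :=
  covD_split 1 (by decide +kernel) A5_c0_t40 A5_c0_t41

theorem A5_c0_t38 : CovD 1 gA5 [(207877046272, 12026118144), (82464210944, 82464210944), (515396075520, 171798691840)] :=
  covD_split 1 (by decide +kernel) A5_c0_t39 A5_c0_t42

theorem A5_c0_t32 : CovD 1 gA5 [(195850928128, 24052236288), (82464210944, 82464210944), (515396075520, 171798691840)] :=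
  covD_split 0 (by decide +kernel) A5_c0_t33 A5_c0_t38

theorem A5_c0_t4 : CovD 1 gA5 [(195850928128, 24052236288), (82464210944, 82464210944), (343597383680, 343597383680)] :=
  covD_split 2 (by decide +kernel) A5_c0_t5 A5_c0_t32

theorem A5_c0_t44 : CovD 1 gA5 [(183824809984, 12026118144), (82464210944, 82464210944), (1030792151040, 343597383680)] :=
  covD_split 1 (by decide +kernel) A5_c0_t45 A5_c0_t46

theorem A5_c0_t47 : CovD 1 gA5 [(207877046272, 12026118144), (82464210944, 82464210944), (1030792151040, 343597383680)] :=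
  covD_split 1 (by decide +kernel) A5_c0_t48 A5_c0_t49

theorem A5_c0_t43 : CovD 1 gA5 [(195850928128, 24052236288), (82464210944, 82464210944), (1030792151040, 343597383680)] :=
  covD_split 0 (by decide +kernel) A5_c0_t44 A5_c0_t47

theorem A5_c0_t3 : CovD 1 gA5 [(195850928128, 24052236288), (82464210944, 82464210944), (687194767360, 687194767360)] :=
  covD_split 2 (by decide +kernel) A5_c0_t4 A5_c0_t43

theorem A5_c0_t52 : CovD 1 gA5 [(207877046272, 12026118144), (82464210944, 82464210944), (2061584302080, 687194767360)] :=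
  covD_split 1 (by decide +kernel) A5_c0_t53 A5_c0_t54

theorem A5_c0_t50 : CovD 1 gA5 [(195850928128, 24052236288), (82464210944, 82464210944), (2061584302080, 687194767360)] :=
  covD_split 0 (by decide +kernel) A5_c0_t51 A5_c0_t52

theorem A5_c0_t2 : CovD 1 gA5 [(195850928128, 24052236288), (82464210944, 82464210944), (1374389534720, 1374389534720)] :=
  covD_split 2 (by decide +kernel) A5_c0_t3 A5_c0_t50

theorem A5_c0_t57 : CovD 1 gA5 [(183824809984, 12026118144), (41232105472, 41232105472), (4123168604160, 1374389534720)] :=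
  covD_split 2 (by decide +kernel) A5_c0_t58 A5_c0_t59

theorem A5_c0_t60 : CovD 1 gA5 [(183824809984, 12026118144), (123696316416, 41232105472), (4123168604160, 1374389534720)] :=
  covD_split 0 (by decide +kernel) A5_c0_t61 A5_c0_t62

theorem A5_c0_t56 : CovD 1 gA5 [(183824809984, 12026118144), (82464210944, 82464210944), (4123168604160, 1374389534720)] :=
  covD_split 1 (by decide +kernel) A5_c0_t57 A5_c0_t60

theorem A5_c0_t55 : CovD 1 gA5 [(195850928128, 24052236288), (82464210944, 82464210944), (4123168604160, 1374389534720)] :=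
  covD_split 0 (by decide +kernel) A5_c0_t56 A5_c0_t63

theorem A5_c0_t1 : CovD 1 gA5 [(195850928128, 24052236288), (82464210944, 82464210944), (2748779069440, 2748779069440)] :=
  covD_split 2 (by decide +kernel) A5_c0_t2 A5_c0_t55

theorem A5_c0_t64 : CovD 1 gA5 [(195850928128, 24052236288), (82464210944, 82464210944), (8246337208320, 2748779069440)] :=
  covD_split 0 (by decide +kernel) A5_c0_t65 A5_c0_t66

theorem A5_c0 : CovD 1 gA5 [(195850928128, 24052236288), (82464210944, 82464210944), (5497558138880, 5497558138880)] :=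
  covD_split 2 (by decide +kernel) A5_c0_t1 A5_c0_t64

theorem C5_c0_t4 : CovD 1 gC5 [(195850928128, 24052236288), (5154013184, 5154013184), (549755813888, 549755813888)] :=
  covD_split 0 (by decide +kernel) C5_c0_t5 C5_c0_t6

theorem C5_c0_t7 : CovD 1 gC5 [(195850928128, 24052236288), (15462039552, 5154013184), (549755813888, 549755813888)] :=
  covD_split 2 (by decide +kernel) C5_c0_t8 C5_c0_t9

theorem C5_c0_t3 : CovD 1 gC5 [(195850928128, 24052236288), (10308026368, 10308026368), (549755813888, 549755813888)] :=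
  covD_split 1 (by decide +kernel) C5_c0_t4 C5_c0_t7

theorem C5_c0_t10 : CovD 1 gC5 [(195850928128, 24052236288), (30924079104, 10308026368), (549755813888, 549755813888)] :=
  covD_split 2 (by decide +kernel) C5_c0_t11 C5_c0_t12

theorem C5_c0_t2 : CovD 1 gC5 [(195850928128, 24052236288), (20616052736, 20616052736), (549755813888, 549755813888)] :=
  covD_split 1 (by decide +kernel) C5_c0_t3 C5_c0_t10

theorem C5_c0_t13 : CovD 1 gC5 [(195850928128, 24052236288), (61848158208, 20616052736), (549755813888, 549755813888)] :=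
  covD_split 2 (by decide +kernel) C5_c0_t14 C5_c0_t15

theorem C5_c0_t1 : CovD 1 gC5 [(195850928128, 24052236288), (41232105472, 41232105472), (549755813888, 549755813888)] :=
  covD_split 1 (by decide +kernel) C5_c0_t2 C5_c0_t13

theorem C5_c0 : CovD 1 gC5 [(195850928128, 24052236288), (82464210944, 82464210944), (549755813888, 549755813888)] :=
  covD_split 1 (by decide +kernel) C5_c0_t1 C5_c0_t16

theorem D5_c0 : CovD 1 gD5 [(195850928128, 24052236288), (82464210944, 82464210944), (863554764800, 863554764800)] :=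
  covD_split 1 (by decide +kernel) D5_c0_t1 D5_c0_t2

end Pool.Agent.helper14.NR.E5a
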