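import Pool.Agent.helper14.NR.E5a.PN6

/-!
Generated: certificates.
-/

namespace Pool.Agent.helper14.NR.E5a

open Pool.Agent.helper31.IA (Z)
open Pool.Agent.helper31.IX (Op XOps runX Cov CovD cov_split covD_split)
open Pool.Agent.helper31.IC (TD)
open Pool.Agent.helper63.RG (reloc)
open Pool.Agent.helper63.NF hiding TD
open Pool.Agent.helper14.CF (xE covD_E)
open Pool.Agent.helper14.NR (share)

mutual
theorem C6_c0_t5 : CovD 1 gC6 [(183824809984, 12026118144), (5154013184, 5154013184), (549755813888, 549755813888)] :=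
  covD_E kC6_eq (.n 2 (.n 2 (.n 2 (.l 0) (.l 0)) (.n 2 (.l 0) (.l 0))) (.n 2 (.n 2 (.l 0) (.l 0)) (.n 2 (.l 0) (.n 2 (.l 0) (.n 2 (.l 0) (.n 2 (.l 0) (.n 0 (.l 1) (.l 1))))))))
    [(183824809984, 12026118144), (5154013184, 5154013184), (549755813888, 549755813888)] rfl (by decide +kernel)
theorem C6_c0_t6 : CovD 1 gC6 [(183824809984, 12026118144), (15462039552, 5154013184), (549755813888, 549755813888)] :=
  covD_E kC6_eq (.n 2 (.n 2 (.n 2 (.l 0) (.l 0)) (.n 2 (.l 0) (.l 0))) (.n 2 (.n 2 (.l 0) (.l 0)) (.n 2 (.l 0) (.n 0 (.l 0) (.l 0)))))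
    [(183824809984, 12026118144), (15462039552, 5154013184), (549755813888, 549755813888)] rfl (by decide +kernel)
end

mutual
theorem C6_c0_t7 : CovD 1 gC6 [(183824809984, 12026118144), (30924079104, 10308026368), (549755813888, 549755813888)] :=
  covD_E kC6_eq (.n 2 (.n 2 (.n 2 (.l 0) (.l 0)) (.n 2 (.l 0) (.l 0))) (.n 2 (.n 2 (.l 0) (.l 0)) (.n 1 (.n 2 (.l 0) (.n 0 (.l 0) (.l 0))) (.n 2 (.l 0) (.l 0)))))
    [(183824809984, 12026118144), (30924079104, 10308026368), (549755813888, 549755813888)] rfl (by decide +kernel)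
theorem C6_c0_t8 : CovD 1 gC6 [(183824809984, 12026118144), (61848158208, 20616052736), (549755813888, 549755813888)] :=
  covD_E kC6_eq (.n 2 (.n 2 (.n 0 (.l 0) (.l 0)) (.n 2 (.l 0) (.l 0))) (.n 1 (.n 2 (.n 0 (.l 0) (.l 0)) (.n 2 (.l 0) (.l 0))) (.n 2 (.l 0) (.l 0))))
    [(183824809984, 12026118144), (61848158208, 20616052736), (549755813888, 549755813888)] rfl (by decide +kernel)
end

mutual
theorem C6_c0_t9 : CovD 1 gC6 [(183824809984, 12026118144), (123696316416, 41232105472), (549755813888, 549755813888)] :=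
  covD_E kC6_eq (.n 1 (.n 2 (.n 2 (.l 0) (.l 0)) (.n 1 (.n 2 (.l 0) (.l 0)) (.n 2 (.l 0) (.n 0 (.l 0) (.l 0))))) (.n 2 (.n 2 (.l 0) (.l 0)) (.n 2 (.n 0 (.l 0) (.l 0)) (.n 2 (.n 0 (.l 0) (.l 0)) (.l 1)))))
    [(183824809984, 12026118144), (123696316416, 41232105472), (549755813888, 549755813888)] rfl (by decide +kernel)
theorem C6_c0_t14 : CovD 1 gC6 [(207877046272, 12026118144), (5154013184, 5154013184), (549755813888, 549755813888)] :=
  covD_E kC6_eq (.n 2 (.n 2 (.n 2 (.l 0) (.l 0)) (.n 2 (.l 0) (.l 0))) (.n 2 (.n 2 (.l 0) (.l 0)) (.n 2 (.l 0) (.n 2 (.l 0) (.n 2 (.l 0) (.n 0 (.l 1) (.l 1)))))))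
    [(207877046272, 12026118144), (5154013184, 5154013184), (549755813888, 549755813888)] rfl (by decide +kernel)
end

mutual
theorem C6_c0_t15 : CovD 1 gC6 [(207877046272, 12026118144), (15462039552, 5154013184), (549755813888, 549755813888)] :=
  covD_E kC6_eq (.n 2 (.n 2 (.n 2 (.l 0) (.l 0)) (.n 2 (.l 0) (.l 0))) (.n 2 (.n 2 (.l 0) (.l 0)) (.n 2 (.l 0) (.n 0 (.l 0) (.l 0)))))
    [(207877046272, 12026118144), (15462039552, 5154013184), (549755813888, 549755813888)] rfl (by decide +kernel)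
theorem C6_c0_t16 : CovD 1 gC6 [(207877046272, 12026118144), (30924079104, 10308026368), (549755813888, 549755813888)] :=
  covD_E kC6_eq (.n 2 (.n 2 (.n 2 (.l 0) (.l 0)) (.n 2 (.l 0) (.l 0))) (.n 2 (.n 2 (.l 0) (.n 0 (.l 0) (.l 0))) (.n 1 (.n 2 (.l 0) (.n 0 (.l 0) (.l 0))) (.n 2 (.l 0) (.l 0)))))
    [(207877046272, 12026118144), (30924079104, 10308026368), (549755813888, 549755813888)] rfl (by decide +kernel)
end

mutual
theorem C6_c0_t17 : CovD 1 gC6 [(207877046272, 12026118144), (61848158208, 20616052736), (549755813888, 549755813888)] :=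
  covD_E kC6_eq (.n 2 (.n 2 (.n 0 (.l 0) (.l 0)) (.n 2 (.l 0) (.l 0))) (.n 1 (.n 2 (.n 0 (.l 0) (.l 0)) (.n 2 (.l 0) (.l 0))) (.n 2 (.l 0) (.n 0 (.l 0) (.l 0)))))
    [(207877046272, 12026118144), (61848158208, 20616052736), (549755813888, 549755813888)] rfl (by decide +kernel)
theorem C6_c0_t18 : CovD 1 gC6 [(207877046272, 12026118144), (123696316416, 41232105472), (549755813888, 549755813888)] :=
  covD_E kC6_eq (.n 1 (.n 2 (.n 2 (.l 0) (.l 0)) (.n 2 (.n 0 (.l 0) (.l 0)) (.n 2 (.l 0) (.n 0 (.l 0) (.l 0))))) (.n 2 (.n 2 (.l 0) (.l 0)) (.n 2 (.n 2 (.l 0) (.l 0)) (.n 1 (.n 2 (.l 0) (.l 1)) (.l 1)))))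
    [(207877046272, 12026118144), (123696316416, 41232105472), (549755813888, 549755813888)] rfl (by decide +kernel)
end

mutual
theorem D6_c0_t2 : CovD 1 gD6 [(195850928128, 24052236288), (41232105472, 41232105472), (431777382400, 431777382400)] :=
  covD_E kD6_eq (.n 2 (.n 2 (.l 0) (.l 0)) (.n 0 (.n 2 (.l 0) (.l 0)) (.n 2 (.l 0) (.l 0))))
    [(195850928128, 24052236288), (41232105472, 41232105472), (431777382400, 431777382400)] rfl (by decide +kernel)
theorem D6_c0_t3 : CovD 1 gD6 [(195850928128, 24052236288), (41232105472, 41232105472), (1295332147200, 431777382400)] :=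
  covD_E kD6_eq (.n 0 (.n 2 (.n 2 (.l 0) (.n 2 (.l 0) (.l 0))) (.n 0 (.n 2 (.n 2 (.l 0) (.l 0)) (.l 1)) (.n 2 (.l 1) (.l 1)))) (.n 2 (.n 2 (.l 0) (.l 0)) (.n 0 (.l 1) (.l 1))))
    [(195850928128, 24052236288), (41232105472, 41232105472), (1295332147200, 431777382400)] rfl (by decide +kernel)
end

mutual
theorem D6_c0_t5 : CovD 1 gD6 [(195850928128, 24052236288), (123696316416, 41232105472), (431777382400, 431777382400)] :=
  covD_E kD6_eq (.n 2 (.n 2 (.l 0) (.n 0 (.l 0) (.l 0))) (.n 0 (.n 2 (.l 0) (.l 0)) (.n 2 (.l 0) (.l 0))))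
    [(195850928128, 24052236288), (123696316416, 41232105472), (431777382400, 431777382400)] rfl (by decide +kernel)
theorem D6_c0_t6 : CovD 1 gD6 [(195850928128, 24052236288), (123696316416, 41232105472), (1295332147200, 431777382400)] :=
  covD_E kD6_eq (.n 0 (.n 2 (.n 2 (.l 0) (.n 2 (.l 0) (.l 0))) (.n 0 (.n 2 (.n 2 (.l 0) (.l 0)) (.l 1)) (.n 2 (.l 1) (.l 1)))) (.n 2 (.n 2 (.l 0) (.l 0)) (.l 1)))
    [(195850928128, 24052236288), (123696316416, 41232105472), (1295332147200, 431777382400)] rfl (by decide +kernel)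
end

theorem E6_c0 : CovD 1 gE6 [(195850928128, 24052236288), (82464210944, 82464210944), (863554764800, 863554764800)] :=
  covD_E kE6_eq (.n 2 (.n 0 (.n 2 (.l 1) (.l 1)) (.n 2 (.l 1) (.l 1))) (.n 0 (.n 2 (.l 1) (.n 1 (.l 1) (.l 1))) (.n 2 (.l 1) (.n 0 (.l 1) (.l 1)))))
    [(195850928128, 24052236288), (82464210944, 82464210944), (863554764800, 863554764800)] rfl (by decide +kernel)

theorem C6_c0_t4 : CovD 1 gC6 [(183824809984, 12026118144), (10308026368, 10308026368), (549755813888, 549755813888)] :=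
  covD_split 1 (by decide +kernel) C6_c0_t5 C6_c0_t6

theorem C6_c0_t3 : CovD 1 gC6 [(183824809984, 12026118144), (20616052736, 20616052736), (549755813888, 549755813888)] :=
  covD_split 1 (by decide +kernel) C6_c0_t4 C6_c0_t7

theorem C6_c0_t2 : CovD 1 gC6 [(183824809984, 12026118144), (41232105472, 41232105472), (549755813888, 549755813888)] :=
  covD_split 1 (by decide +kernel) C6_c0_t3 C6_c0_t8

theorem C6_c0_t1 : CovD 1 gC6 [(183824809984, 12026118144), (82464210944, 82464210944), (549755813888, 549755813888)] :=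
  covD_split 1 (by decide +kernel) C6_c0_t2 C6_c0_t9

theorem C6_c0_t13 : CovD 1 gC6 [(207877046272, 12026118144), (10308026368, 10308026368), (549755813888, 549755813888)] :=
  covD_split 1 (by decide +kernel) C6_c0_t14 C6_c0_t15

theorem C6_c0_t12 : CovD 1 gC6 [(207877046272, 12026118144), (20616052736, 20616052736), (549755813888, 549755813888)] :=
  covD_split 1 (by decide +kernel) C6_c0_t13 C6_c0_t16

theorem C6_c0_t11 : CovD 1 gC6 [(207877046272, 12026118144), (41232105472, 41232105472), (549755813888, 549755813888)] :=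
  covD_split 1 (by decide +kernel) C6_c0_t12 C6_c0_t17

theorem C6_c0_t10 : CovD 1 gC6 [(207877046272, 12026118144), (82464210944, 82464210944), (549755813888, 549755813888)] :=
  covD_split 1 (by decide +kernel) C6_c0_t11 C6_c0_t18

theorem C6_c0 : CovD 1 gC6 [(195850928128, 24052236288), (82464210944, 82464210944), (549755813888, 549755813888)] :=
  covD_split 0 (by decide +kernel) C6_c0_t1 C6_c0_t10

theorem D6_c0_t1 : CovD 1 gD6 [(195850928128, 24052236288), (41232105472, 41232105472), (863554764800, 863554764800)] :=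
  covD_split 2 (by decide +kernel) D6_c0_t2 D6_c0_t3

theorem D6_c0_t4 : CovD 1 gD6 [(195850928128, 24052236288), (123696316416, 41232105472), (863554764800, 863554764800)] :=
  covD_split 2 (by decide +kernel) D6_c0_t5 D6_c0_t6

theorem D6_c0 : CovD 1 gD6 [(195850928128, 24052236288), (82464210944, 82464210944), (863554764800, 863554764800)] :=
  covD_split 1 (by decide +kernel) D6_c0_t1 D6_c0_t4

end Pool.Agent.helper14.NR.E5a
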