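import Pool.Agent.helper14.NR.E5a.PZ

/-!
Generated: certificates.
-/

namespace Pool.Agent.helper14.NR.E5a

open Pool.Agent.helper31.IA (Z)
open Pool.Agent.helper31.IX (Op XOps runX Cov CovD cov_split covD_split)
open Pool.Agent.helper31.IC (TD)
open Pool.Agent.helper63.RG (reloc)
open Pool.Agent.helper63.NF hiding TD
open Pool.Agent.helper14.CF (xE covD_E)
open Pool.Agent.helper14.NR (share)

mutual
theorem Z_c0_t8 : CovD 1 gZ [(177811750912, 6013059072), (10308026368, 10308026368), (120258297856, 65283555328)] :=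
  covD_E kZ_eq (.n 2 (.n 2 (.n 2 (.l 0) (.l 0)) (.n 2 (.l 0) (.l 0))) (.n 2 (.n 1 (.n 2 (.l 0) (.l 0)) (.n 2 (.l 0) (.l 0))) (.n 2 (.n 2 (.l 0) (.l 0)) (.n 2 (.l 0) (.l 0)))))
    [(177811750912, 6013059072), (10308026368, 10308026368), (120258297856, 65283555328)] rfl (by decide +kernel)
theorem Z_c0_t9 : CovD 1 gZ [(177811750912, 6013059072), (10308026368, 10308026368), (250825408512, 65283555328)] :=
  covD_E kZ_eq (.n 2 (.n 2 (.n 2 (.n 2 (.l 0) (.l 0)) (.n 0 (.l 0) (.l 0))) (.n 2 (.n 0 (.l 0) (.l 0)) (.l 0))) (.n 2 (.n 2 (.l 0) (.l 0)) (.l 0)))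
    [(177811750912, 6013059072), (10308026368, 10308026368), (250825408512, 65283555328)] rfl (by decide +kernel)
end

mutual
theorem Z_c0_t11 : CovD 1 gZ [(189837869056, 6013059072), (10308026368, 10308026368), (120258297856, 65283555328)] :=
  covD_E kZ_eq (.n 2 (.n 2 (.n 2 (.l 0) (.l 0)) (.n 2 (.l 0) (.l 0))) (.n 2 (.n 2 (.l 0) (.n 0 (.l 0) (.l 0))) (.n 0 (.n 2 (.l 0) (.l 0)) (.n 2 (.l 0) (.l 0)))))
    [(189837869056, 6013059072), (10308026368, 10308026368), (120258297856, 65283555328)] rfl (by decide +kernel)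
theorem Z_c0_t12 : CovD 1 gZ [(189837869056, 6013059072), (10308026368, 10308026368), (250825408512, 65283555328)] :=
  covD_E kZ_eq (.n 2 (.n 2 (.n 0 (.n 2 (.l 0) (.l 0)) (.n 2 (.l 0) (.l 0))) (.n 2 (.l 0) (.l 0))) (.n 2 (.n 0 (.l 0) (.l 0)) (.l 0)))
    [(189837869056, 6013059072), (10308026368, 10308026368), (250825408512, 65283555328)] rfl (by decide +kernel)
end

mutual
theorem Z_c0_t15 : CovD 1 gZ [(183824809984, 12026118144), (30924079104, 10308026368), (87616520192, 32641777664)] :=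
  covD_E kZ_eq (.n 0 (.n 2 (.n 2 (.l 0) (.l 0)) (.n 2 (.l 0) (.l 0))) (.n 2 (.n 2 (.l 0) (.l 0)) (.n 2 (.l 0) (.l 0))))
    [(183824809984, 12026118144), (30924079104, 10308026368), (87616520192, 32641777664)] rfl (by decide +kernel)
theorem Z_c0_t16 : CovD 1 gZ [(183824809984, 12026118144), (30924079104, 10308026368), (152900075520, 32641777664)] :=
  covD_E kZ_eq (.n 2 (.n 2 (.n 2 (.l 0) (.l 0)) (.n 0 (.n 0 (.l 0) (.l 0)) (.l 0))) (.n 0 (.n 0 (.n 2 (.l 0) (.l 0)) (.n 2 (.l 0) (.l 0))) (.n 2 (.l 0) (.l 0))))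
    [(183824809984, 12026118144), (30924079104, 10308026368), (152900075520, 32641777664)] rfl (by decide +kernel)
end

mutual
theorem Z_c0_t17 : CovD 1 gZ [(183824809984, 12026118144), (30924079104, 10308026368), (250825408512, 65283555328)] :=
  covD_E kZ_eq (.n 0 (.n 2 (.n 2 (.n 2 (.n 0 (.l 0) (.l 0)) (.l 0)) (.n 2 (.l 0) (.l 0))) (.n 2 (.n 0 (.l 0) (.l 0)) (.l 0))) (.n 2 (.n 2 (.n 2 (.l 0) (.l 0)) (.n 2 (.l 0) (.l 0))) (.n 2 (.l 0) (.l 0))))
    [(183824809984, 12026118144), (30924079104, 10308026368), (250825408512, 65283555328)] rfl (by decide +kernel)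
theorem Z_c0_t18 : CovD 1 gZ [(183824809984, 12026118144), (20616052736, 20616052736), (446676074496, 130567110656)] :=
  covD_E kZ_eq (.n 2 (.n 2 (.n 0 (.n 2 (.l 0) (.l 0)) (.n 2 (.l 0) (.l 0))) (.n 2 (.n 0 (.l 0) (.l 0)) (.l 0))) (.n 0 (.n 2 (.l 0) (.l 0)) (.n 2 (.l 0) (.l 0))))
    [(183824809984, 12026118144), (20616052736, 20616052736), (446676074496, 130567110656)] rfl (by decide +kernel)
end

mutual
theorem Z_c0_t22 : CovD 1 gZ [(183824809984, 12026118144), (51540131840, 10308026368), (120258297856, 65283555328)] :=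
  covD_E kZ_eq (.n 0 (.n 2 (.n 2 (.n 2 (.l 0) (.l 0)) (.n 2 (.l 0) (.l 0))) (.n 2 (.n 2 (.l 0) (.l 0)) (.n 2 (.l 0) (.l 0)))) (.n 2 (.n 2 (.n 2 (.l 0) (.l 0)) (.n 2 (.l 0) (.l 0))) (.n 2 (.n 2 (.l 0) (.l 0)) (.n 2 (.l 0) (.l 0)))))
    [(183824809984, 12026118144), (51540131840, 10308026368), (120258297856, 65283555328)] rfl (by decide +kernel)
theorem Z_c0_t23 : CovD 1 gZ [(183824809984, 12026118144), (72156184576, 10308026368), (120258297856, 65283555328)] :=
  covD_E kZ_eq (.n 2 (.n 2 (.n 2 (.l 0) (.l 0)) (.n 2 (.l 0) (.l 0))) (.n 2 (.n 2 (.l 0) (.l 0)) (.n 2 (.l 0) (.l 0))))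
    [(183824809984, 12026118144), (72156184576, 10308026368), (120258297856, 65283555328)] rfl (by decide +kernel)
end

mutual
theorem Z_c0_t24 : CovD 1 gZ [(183824809984, 12026118144), (61848158208, 20616052736), (250825408512, 65283555328)] :=
  covD_E kZ_eq (.n 2 (.n 0 (.n 2 (.n 2 (.n 0 (.l 0) (.l 0)) (.l 0)) (.n 2 (.l 0) (.l 0))) (.n 2 (.n 2 (.l 0) (.l 0)) (.n 2 (.l 0) (.l 0)))) (.n 2 (.n 2 (.n 0 (.l 0) (.l 0)) (.l 0)) (.n 0 (.l 0) (.l 0))))
    [(183824809984, 12026118144), (61848158208, 20616052736), (250825408512, 65283555328)] rfl (by decide +kernel)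
theorem Z_c0_t25 : CovD 1 gZ [(183824809984, 12026118144), (61848158208, 20616052736), (446676074496, 130567110656)] :=
  covD_E kZ_eq (.n 2 (.n 2 (.n 2 (.n 0 (.l 0) (.l 0)) (.l 0)) (.n 2 (.l 0) (.l 0))) (.n 0 (.n 2 (.l 0) (.l 0)) (.n 2 (.l 0) (.l 0))))
    [(183824809984, 12026118144), (61848158208, 20616052736), (446676074496, 130567110656)] rfl (by decide +kernel)
end

mutual
theorem Z_c0_t29 : CovD 1 gZ [(183824809984, 12026118144), (103080263680, 20616052736), (120258297856, 65283555328)] :=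
  covD_E kZ_eq (.n 2 (.n 0 (.n 2 (.n 2 (.l 0) (.l 0)) (.n 2 (.l 0) (.l 0))) (.n 2 (.n 2 (.l 0) (.l 0)) (.n 1 (.l 0) (.l 0)))) (.n 2 (.n 0 (.n 2 (.l 0) (.l 0)) (.n 1 (.l 0) (.l 0))) (.n 2 (.n 0 (.l 0) (.l 0)) (.l 0))))
    [(183824809984, 12026118144), (103080263680, 20616052736), (120258297856, 65283555328)] rfl (by decide +kernel)
theorem Z_c0_t30 : CovD 1 gZ [(183824809984, 12026118144), (103080263680, 20616052736), (250825408512, 65283555328)] :=
  covD_E kZ_eq (.n 2 (.n 2 (.n 2 (.l 0) (.l 0)) (.n 0 (.l 0) (.l 0))) (.n 2 (.n 0 (.l 0) (.l 0)) (.l 0)))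
    [(183824809984, 12026118144), (103080263680, 20616052736), (250825408512, 65283555328)] rfl (by decide +kernel)
end

mutual
theorem Z_c0_t31 : CovD 1 gZ [(183824809984, 12026118144), (103080263680, 20616052736), (446676074496, 130567110656)] :=
  covD_E kZ_eq (.n 2 (.n 2 (.n 2 (.l 0) (.l 0)) (.n 0 (.l 0) (.l 0))) (.n 0 (.n 2 (.l 0) (.l 0)) (.n 2 (.l 0) (.l 0))))
    [(183824809984, 12026118144), (103080263680, 20616052736), (446676074496, 130567110656)] rfl (by decide +kernel)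
theorem Z_c0_t33 : CovD 1 gZ [(183824809984, 12026118144), (144312369152, 20616052736), (185541853184, 130567110656)] :=
  covD_E kZ_eq (.n 2 (.n 2 (.n 2 (.n 2 (.l 0) (.l 0)) (.n 2 (.l 0) (.l 0))) (.n 0 (.n 2 (.l 0) (.l 0)) (.n 2 (.l 0) (.l 0)))) (.n 2 (.n 2 (.n 0 (.l 0) (.l 0)) (.l 0)) (.n 2 (.l 0) (.l 0))))
    [(183824809984, 12026118144), (144312369152, 20616052736), (185541853184, 130567110656)] rfl (by decide +kernel)
end

mutual
theorem Z_c0_t34 : CovD 1 gZ [(183824809984, 12026118144), (144312369152, 20616052736), (446676074496, 130567110656)] :=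
  covD_E kZ_eq (.n 2 (.n 0 (.n 2 (.l 0) (.l 0)) (.n 2 (.l 0) (.l 0))) (.n 2 (.n 0 (.l 0) (.l 0)) (.l 0)))
    [(183824809984, 12026118144), (144312369152, 20616052736), (446676074496, 130567110656)] rfl (by decide +kernel)
theorem Z_c0_t41 : CovD 1 gZ [(207877046272, 12026118144), (10308026368, 10308026368), (87616520192, 32641777664)] :=
  covD_E kZ_eq (.n 2 (.n 2 (.l 0) (.l 0)) (.n 0 (.n 2 (.l 0) (.l 0)) (.n 2 (.l 0) (.l 0))))
    [(207877046272, 12026118144), (10308026368, 10308026368), (87616520192, 32641777664)] rfl (by decide +kernel)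
end

mutual
theorem Z_c0_t42 : CovD 1 gZ [(207877046272, 12026118144), (10308026368, 10308026368), (152900075520, 32641777664)] :=
  covD_E kZ_eq (.n 0 (.n 2 (.n 2 (.l 0) (.l 0)) (.n 0 (.n 2 (.l 0) (.l 0)) (.n 2 (.l 0) (.l 0)))) (.n 2 (.n 2 (.l 0) (.n 0 (.l 0) (.l 0))) (.n 0 (.n 2 (.l 0) (.l 0)) (.n 2 (.l 0) (.l 0)))))
    [(207877046272, 12026118144), (10308026368, 10308026368), (152900075520, 32641777664)] rfl (by decide +kernel)
theorem Z_c0_t43 : CovD 1 gZ [(207877046272, 12026118144), (30924079104, 10308026368), (120258297856, 65283555328)] :=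
  covD_E kZ_eq (.n 2 (.n 2 (.n 2 (.n 0 (.l 0) (.l 0)) (.l 0)) (.n 2 (.l 0) (.n 0 (.l 0) (.l 0)))) (.n 0 (.n 2 (.n 2 (.l 0) (.l 0)) (.n 2 (.l 0) (.l 0))) (.n 2 (.n 2 (.l 0) (.l 0)) (.n 2 (.l 0) (.l 0)))))
    [(207877046272, 12026118144), (30924079104, 10308026368), (120258297856, 65283555328)] rfl (by decide +kernel)
end

mutual
theorem Z_c0_t46 : CovD 1 gZ [(201863987200, 6013059072), (20616052736, 20616052736), (218183630848, 32641777664)] :=
  covD_E kZ_eq (.n 1 (.n 2 (.n 2 (.n 0 (.l 0) (.l 0)) (.l 0)) (.n 2 (.l 0) (.l 0))) (.n 2 (.n 2 (.l 0) (.l 0)) (.n 2 (.l 0) (.l 0))))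
    [(201863987200, 6013059072), (20616052736, 20616052736), (218183630848, 32641777664)] rfl (by decide +kernel)
theorem Z_c0_t47 : CovD 1 gZ [(213890105344, 6013059072), (20616052736, 20616052736), (218183630848, 32641777664)] :=
  covD_E kZ_eq (.n 1 (.n 2 (.n 0 (.n 2 (.l 0) (.l 0)) (.n 2 (.l 0) (.l 0))) (.n 2 (.l 0) (.l 0))) (.n 2 (.n 2 (.l 0) (.l 0)) (.n 2 (.l 0) (.l 0))))
    [(213890105344, 6013059072), (20616052736, 20616052736), (218183630848, 32641777664)] rfl (by decide +kernel)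
end

mutual
theorem Z_c0_t48 : CovD 1 gZ [(207877046272, 12026118144), (20616052736, 20616052736), (283467186176, 32641777664)] :=
  covD_E kZ_eq (.n 2 (.n 2 (.n 1 (.n 0 (.l 0) (.l 0)) (.l 0)) (.n 0 (.l 0) (.l 0))) (.n 0 (.n 0 (.l 0) (.l 0)) (.n 1 (.l 0) (.l 0))))
    [(207877046272, 12026118144), (20616052736, 20616052736), (283467186176, 32641777664)] rfl (by decide +kernel)
theorem Z_c0_t49 : CovD 1 gZ [(207877046272, 12026118144), (20616052736, 20616052736), (446676074496, 130567110656)] :=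
  covD_E kZ_eq (.n 2 (.n 2 (.n 0 (.n 2 (.l 0) (.l 0)) (.n 2 (.l 0) (.l 0))) (.n 2 (.n 0 (.l 0) (.l 0)) (.l 0))) (.n 0 (.n 2 (.l 0) (.l 0)) (.n 2 (.l 0) (.l 0))))
    [(207877046272, 12026118144), (20616052736, 20616052736), (446676074496, 130567110656)] rfl (by decide +kernel)
end

mutual
theorem Z_c0_t53 : CovD 1 gZ [(207877046272, 12026118144), (61848158208, 20616052736), (87616520192, 32641777664)] :=
  covD_E kZ_eq (.n 1 (.n 2 (.n 2 (.l 0) (.l 0)) (.n 2 (.l 0) (.l 0))) (.n 2 (.n 2 (.l 0) (.l 0)) (.n 2 (.l 0) (.l 0))))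
    [(207877046272, 12026118144), (61848158208, 20616052736), (87616520192, 32641777664)] rfl (by decide +kernel)
theorem Z_c0_t54 : CovD 1 gZ [(207877046272, 12026118144), (61848158208, 20616052736), (152900075520, 32641777664)] :=
  covD_E kZ_eq (.n 2 (.n 1 (.n 2 (.l 0) (.n 0 (.l 0) (.l 0))) (.n 2 (.l 0) (.l 0))) (.n 2 (.n 1 (.n 0 (.l 0) (.l 0)) (.l 0)) (.n 0 (.l 0) (.l 0))))
    [(207877046272, 12026118144), (61848158208, 20616052736), (152900075520, 32641777664)] rfl (by decide +kernel)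
end

mutual
theorem Z_c0_t55 : CovD 1 gZ [(207877046272, 12026118144), (61848158208, 20616052736), (250825408512, 65283555328)] :=
  covD_E kZ_eq (.n 2 (.n 0 (.n 2 (.n 2 (.l 0) (.l 0)) (.n 1 (.l 0) (.l 0))) (.n 2 (.n 2 (.l 0) (.l 0)) (.n 2 (.l 0) (.l 0)))) (.n 2 (.n 2 (.n 0 (.l 0) (.l 0)) (.l 0)) (.n 0 (.l 0) (.l 0))))
    [(207877046272, 12026118144), (61848158208, 20616052736), (250825408512, 65283555328)] rfl (by decide +kernel)
theorem Z_c0_t56 : CovD 1 gZ [(207877046272, 12026118144), (61848158208, 20616052736), (446676074496, 130567110656)] :=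
  covD_E kZ_eq (.n 2 (.n 2 (.n 0 (.n 2 (.l 0) (.l 0)) (.n 2 (.l 0) (.l 0))) (.n 2 (.l 0) (.l 0))) (.n 0 (.n 2 (.l 0) (.l 0)) (.n 2 (.l 0) (.l 0))))
    [(207877046272, 12026118144), (61848158208, 20616052736), (446676074496, 130567110656)] rfl (by decide +kernel)
end

mutual
theorem Z_c0_t60 : CovD 1 gZ [(207877046272, 12026118144), (103080263680, 20616052736), (120258297856, 65283555328)] :=
  covD_E kZ_eq (.n 2 (.n 0 (.n 2 (.n 2 (.l 0) (.l 0)) (.n 1 (.l 0) (.l 0))) (.n 2 (.n 2 (.l 0) (.l 0)) (.n 2 (.l 0) (.l 0)))) (.n 2 (.n 2 (.l 0) (.l 0)) (.n 2 (.l 0) (.l 0))))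
    [(207877046272, 12026118144), (103080263680, 20616052736), (120258297856, 65283555328)] rfl (by decide +kernel)
theorem Z_c0_t61 : CovD 1 gZ [(207877046272, 12026118144), (103080263680, 20616052736), (250825408512, 65283555328)] :=
  covD_E kZ_eq (.n 2 (.n 2 (.n 2 (.l 0) (.l 0)) (.n 0 (.l 0) (.l 0))) (.n 0 (.n 2 (.l 0) (.l 0)) (.n 2 (.l 0) (.l 0))))
    [(207877046272, 12026118144), (103080263680, 20616052736), (250825408512, 65283555328)] rfl (by decide +kernel)
end

mutual
theorem Z_c0_t62 : CovD 1 gZ [(207877046272, 12026118144), (103080263680, 20616052736), (446676074496, 130567110656)] :=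
  covD_E kZ_eq (.n 2 (.n 2 (.n 2 (.l 0) (.l 0)) (.n 0 (.l 0) (.l 0))) (.n 0 (.n 2 (.l 0) (.l 0)) (.n 2 (.l 0) (.l 0))))
    [(207877046272, 12026118144), (103080263680, 20616052736), (446676074496, 130567110656)] rfl (by decide +kernel)
theorem Z_c0_t64 : CovD 1 gZ [(207877046272, 12026118144), (144312369152, 20616052736), (185541853184, 130567110656)] :=
  covD_E kZ_eq (.n 2 (.n 2 (.n 2 (.n 2 (.l 0) (.l 0)) (.n 1 (.l 0) (.l 0))) (.n 0 (.n 2 (.l 0) (.l 0)) (.n 2 (.l 0) (.l 0)))) (.n 2 (.n 2 (.n 0 (.l 0) (.l 0)) (.l 0)) (.n 2 (.l 0) (.l 0))))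
    [(207877046272, 12026118144), (144312369152, 20616052736), (185541853184, 130567110656)] rfl (by decide +kernel)
end

mutual
theorem Z_c0_t65 : CovD 1 gZ [(207877046272, 12026118144), (144312369152, 20616052736), (446676074496, 130567110656)] :=
  covD_E kZ_eq (.n 2 (.n 0 (.n 2 (.l 0) (.l 0)) (.n 2 (.l 0) (.l 0))) (.n 2 (.n 0 (.l 0) (.l 0)) (.l 0)))
    [(207877046272, 12026118144), (144312369152, 20616052736), (446676074496, 130567110656)] rfl (by decide +kernel)
theorem Z_c0_t69 : CovD 1 gZ [(177811750912, 6013059072), (41232105472, 41232105472), (838377406464, 261134221312)] :=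
  covD_E kZ_eq (.n 2 (.n 2 (.n 2 (.n 0 (.l 0) (.l 0)) (.l 0)) (.n 2 (.l 0) (.l 0))) (.n 0 (.n 2 (.l 0) (.l 0)) (.n 2 (.l 0) (.l 0))))
    [(177811750912, 6013059072), (41232105472, 41232105472), (838377406464, 261134221312)] rfl (by decide +kernel)
end

mutual
theorem Z_c0_t70 : CovD 1 gZ [(177811750912, 6013059072), (123696316416, 41232105472), (838377406464, 261134221312)] :=
  covD_E kZ_eq (.n 2 (.n 2 (.n 2 (.l 0) (.l 0)) (.n 1 (.l 0) (.l 0))) (.n 0 (.n 2 (.l 0) (.l 0)) (.n 2 (.l 0) (.l 0))))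
    [(177811750912, 6013059072), (123696316416, 41232105472), (838377406464, 261134221312)] rfl (by decide +kernel)
theorem Z_c0_t72 : CovD 1 gZ [(189837869056, 6013059072), (41232105472, 41232105472), (838377406464, 261134221312)] :=
  covD_E kZ_eq (.n 2 (.n 2 (.n 2 (.n 0 (.l 0) (.l 0)) (.l 0)) (.n 2 (.l 0) (.l 0))) (.n 0 (.n 2 (.l 0) (.l 0)) (.n 2 (.l 0) (.l 0))))
    [(189837869056, 6013059072), (41232105472, 41232105472), (838377406464, 261134221312)] rfl (by decide +kernel)
end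

mutual
theorem Z_c0_t73 : CovD 1 gZ [(189837869056, 6013059072), (123696316416, 41232105472), (838377406464, 261134221312)] :=
  covD_E kZ_eq (.n 2 (.n 2 (.n 2 (.l 0) (.l 0)) (.n 2 (.l 0) (.l 0))) (.n 0 (.n 2 (.l 0) (.l 0)) (.n 2 (.l 0) (.l 0))))
    [(189837869056, 6013059072), (123696316416, 41232105472), (838377406464, 261134221312)] rfl (by decide +kernel)
theorem Z_c0_t76 : CovD 1 gZ [(201863987200, 6013059072), (41232105472, 41232105472), (838377406464, 261134221312)] :=
  covD_E kZ_eq (.n 2 (.n 2 (.n 0 (.n 2 (.l 0) (.l 0)) (.n 2 (.l 0) (.l 0))) (.n 2 (.l 0) (.l 0))) (.n 1 (.n 2 (.l 0) (.l 0)) (.n 2 (.l 0) (.l 0))))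
    [(201863987200, 6013059072), (41232105472, 41232105472), (838377406464, 261134221312)] rfl (by decide +kernel)
end

mutual
theorem Z_c0_t77 : CovD 1 gZ [(201863987200, 6013059072), (123696316416, 41232105472), (838377406464, 261134221312)] :=
  covD_E kZ_eq (.n 2 (.n 2 (.n 2 (.l 0) (.l 0)) (.n 2 (.l 0) (.l 0))) (.n 0 (.n 2 (.l 0) (.l 0)) (.n 2 (.l 0) (.l 0))))
    [(201863987200, 6013059072), (123696316416, 41232105472), (838377406464, 261134221312)] rfl (by decide +kernel)
theorem Z_c0_t79 : CovD 1 gZ [(213890105344, 6013059072), (41232105472, 41232105472), (838377406464, 261134221312)] :=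
  covD_E kZ_eq (.n 2 (.n 2 (.n 0 (.n 2 (.l 0) (.l 0)) (.n 2 (.l 0) (.l 0))) (.n 2 (.l 0) (.l 0))) (.n 2 (.n 2 (.l 0) (.l 0)) (.n 2 (.l 0) (.l 0))))
    [(213890105344, 6013059072), (41232105472, 41232105472), (838377406464, 261134221312)] rfl (by decide +kernel)
end

mutual
theorem Z_c0_t80 : CovD 1 gZ [(213890105344, 6013059072), (123696316416, 41232105472), (838377406464, 261134221312)] :=
  covD_E kZ_eq (.n 2 (.n 2 (.n 2 (.n 0 (.l 0) (.l 0)) (.l 0)) (.n 2 (.l 0) (.l 0))) (.n 2 (.n 2 (.l 0) (.l 0)) (.n 0 (.l 0) (.n 2 (.l 0) (.l 0)))))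
    [(213890105344, 6013059072), (123696316416, 41232105472), (838377406464, 261134221312)] rfl (by decide +kernel)
theorem T_c0 : CovD 1 gT [(195850928128, 24052236288), (82464210944, 82464210944)] :=
  covD_E kT_eq (.l 0)
    [(195850928128, 24052236288), (82464210944, 82464210944)] rfl (by decide +kernel)
end

theorem S_c0 : CovD 0 gS [(195850928128, 24052236288), (82464210944, 82464210944)] :=
  covD_E kS_eq (.l 0)
    [(195850928128, 24052236288), (82464210944, 82464210944)] rfl (by decide +kernel)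

theorem Z_c0_t7 : CovD 1 gZ [(177811750912, 6013059072), (10308026368, 10308026368), (185541853184, 130567110656)] :=
  covD_split 2 (by decide +kernel) Z_c0_t8 Z_c0_t9

theorem Z_c0_t10 : CovD 1 gZ [(189837869056, 6013059072), (10308026368, 10308026368), (185541853184, 130567110656)] :=
  covD_split 2 (by decide +kernel) Z_c0_t11 Z_c0_t12

theorem Z_c0_t6 : CovD 1 gZ [(183824809984, 12026118144), (10308026368, 10308026368), (185541853184, 130567110656)] :=
  covD_split 0 (by decide +kernel) Z_c0_t7 Z_c0_t10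

theorem Z_c0_t14 : CovD 1 gZ [(183824809984, 12026118144), (30924079104, 10308026368), (120258297856, 65283555328)] :=
  covD_split 2 (by decide +kernel) Z_c0_t15 Z_c0_t16

theorem Z_c0_t13 : CovD 1 gZ [(183824809984, 12026118144), (30924079104, 10308026368), (185541853184, 130567110656)] :=
  covD_split 2 (by decide +kernel) Z_c0_t14 Z_c0_t17

theorem Z_c0_t5 : CovD 1 gZ [(183824809984, 12026118144), (20616052736, 20616052736), (185541853184, 130567110656)] :=
  covD_split 1 (by decide +kernel) Z_c0_t6 Z_c0_t13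

theorem Z_c0_t4 : CovD 1 gZ [(183824809984, 12026118144), (20616052736, 20616052736), (316108963840, 261134221312)] :=
  covD_split 2 (by decide +kernel) Z_c0_t5 Z_c0_t18

theorem Z_c0_t21 : CovD 1 gZ [(183824809984, 12026118144), (61848158208, 20616052736), (120258297856, 65283555328)] :=
  covD_split 1 (by decide +kernel) Z_c0_t22 Z_c0_t23

theorem Z_c0_t20 : CovD 1 gZ [(183824809984, 12026118144), (61848158208, 20616052736), (185541853184, 130567110656)] :=
  covD_split 2 (by decide +kernel) Z_c0_t21 Z_c0_t24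

theorem Z_c0_t19 : CovD 1 gZ [(183824809984, 12026118144), (61848158208, 20616052736), (316108963840, 261134221312)] :=
  covD_split 2 (by decide +kernel) Z_c0_t20 Z_c0_t25

theorem Z_c0_t3 : CovD 1 gZ [(183824809984, 12026118144), (41232105472, 41232105472), (316108963840, 261134221312)] :=
  covD_split 1 (by decide +kernel) Z_c0_t4 Z_c0_t19

theorem Z_c0_t28 : CovD 1 gZ [(183824809984, 12026118144), (103080263680, 20616052736), (185541853184, 130567110656)] :=
  covD_split 2 (by decide +kernel) Z_c0_t29 Z_c0_t30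

theorem Z_c0_t27 : CovD 1 gZ [(183824809984, 12026118144), (103080263680, 20616052736), (316108963840, 261134221312)] :=
  covD_split 2 (by decide +kernel) Z_c0_t28 Z_c0_t31

theorem Z_c0_t32 : CovD 1 gZ [(183824809984, 12026118144), (144312369152, 20616052736), (316108963840, 261134221312)] :=
  covD_split 2 (by decide +kernel) Z_c0_t33 Z_c0_t34

theorem Z_c0_t26 : CovD 1 gZ [(183824809984, 12026118144), (123696316416, 41232105472), (316108963840, 261134221312)] :=
  covD_split 1 (by decide +kernel) Z_c0_t27 Z_c0_t32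

theorem Z_c0_t2 : CovD 1 gZ [(183824809984, 12026118144), (82464210944, 82464210944), (316108963840, 261134221312)] :=
  covD_split 1 (by decide +kernel) Z_c0_t3 Z_c0_t26

theorem Z_c0_t40 : CovD 1 gZ [(207877046272, 12026118144), (10308026368, 10308026368), (120258297856, 65283555328)] :=
  covD_split 2 (by decide +kernel) Z_c0_t41 Z_c0_t42

theorem Z_c0_t39 : CovD 1 gZ [(207877046272, 12026118144), (20616052736, 20616052736), (120258297856, 65283555328)] :=
  covD_split 1 (by decide +kernel) Z_c0_t40 Z_c0_t43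

theorem Z_c0_t45 : CovD 1 gZ [(207877046272, 12026118144), (20616052736, 20616052736), (218183630848, 32641777664)] :=
  covD_split 0 (by decide +kernel) Z_c0_t46 Z_c0_t47

theorem Z_c0_t44 : CovD 1 gZ [(207877046272, 12026118144), (20616052736, 20616052736), (250825408512, 65283555328)] :=
  covD_split 2 (by decide +kernel) Z_c0_t45 Z_c0_t48

theorem Z_c0_t38 : CovD 1 gZ [(207877046272, 12026118144), (20616052736, 20616052736), (185541853184, 130567110656)] :=
  covD_split 2 (by decide +kernel) Z_c0_t39 Z_c0_t44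

theorem Z_c0_t37 : CovD 1 gZ [(207877046272, 12026118144), (20616052736, 20616052736), (316108963840, 261134221312)] :=
  covD_split 2 (by decide +kernel) Z_c0_t38 Z_c0_t49

theorem Z_c0_t52 : CovD 1 gZ [(207877046272, 12026118144), (61848158208, 20616052736), (120258297856, 65283555328)] :=
  covD_split 2 (by decide +kernel) Z_c0_t53 Z_c0_t54

theorem Z_c0_t51 : CovD 1 gZ [(207877046272, 12026118144), (61848158208, 20616052736), (185541853184, 130567110656)] :=
  covD_split 2 (by decide +kernel) Z_c0_t52 Z_c0_t55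

theorem Z_c0_t50 : CovD 1 gZ [(207877046272, 12026118144), (61848158208, 20616052736), (316108963840, 261134221312)] :=
  covD_split 2 (by decide +kernel) Z_c0_t51 Z_c0_t56

theorem Z_c0_t36 : CovD 1 gZ [(207877046272, 12026118144), (41232105472, 41232105472), (316108963840, 261134221312)] :=
  covD_split 1 (by decide +kernel) Z_c0_t37 Z_c0_t50

theorem Z_c0_t59 : CovD 1 gZ [(207877046272, 12026118144), (103080263680, 20616052736), (185541853184, 130567110656)] :=
  covD_split 2 (by decide +kernel) Z_c0_t60 Z_c0_t61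

theorem Z_c0_t58 : CovD 1 gZ [(207877046272, 12026118144), (103080263680, 20616052736), (316108963840, 261134221312)] :=
  covD_split 2 (by decide +kernel) Z_c0_t59 Z_c0_t62

theorem Z_c0_t63 : CovD 1 gZ [(207877046272, 12026118144), (144312369152, 20616052736), (316108963840, 261134221312)] :=
  covD_split 2 (by decide +kernel) Z_c0_t64 Z_c0_t65

theorem Z_c0_t57 : CovD 1 gZ [(207877046272, 12026118144), (123696316416, 41232105472), (316108963840, 261134221312)] :=
  covD_split 1 (by decide +kernel) Z_c0_t58 Z_c0_t63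

theorem Z_c0_t35 : CovD 1 gZ [(207877046272, 12026118144), (82464210944, 82464210944), (316108963840, 261134221312)] :=
  covD_split 1 (by decide +kernel) Z_c0_t36 Z_c0_t57

theorem Z_c0_t1 : CovD 1 gZ [(195850928128, 24052236288), (82464210944, 82464210944), (316108963840, 261134221312)] :=
  covD_split 0 (by decide +kernel) Z_c0_t2 Z_c0_t35

theorem Z_c0_t68 : CovD 1 gZ [(177811750912, 6013059072), (82464210944, 82464210944), (838377406464, 261134221312)] :=
  covD_split 1 (by decide +kernel) Z_c0_t69 Z_c0_t70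

theorem Z_c0_t71 : CovD 1 gZ [(189837869056, 6013059072), (82464210944, 82464210944), (838377406464, 261134221312)] :=
  covD_split 1 (by decide +kernel) Z_c0_t72 Z_c0_t73

theorem Z_c0_t67 : CovD 1 gZ [(183824809984, 12026118144), (82464210944, 82464210944), (838377406464, 261134221312)] :=
  covD_split 0 (by decide +kernel) Z_c0_t68 Z_c0_t71

theorem Z_c0_t75 : CovD 1 gZ [(201863987200, 6013059072), (82464210944, 82464210944), (838377406464, 261134221312)] :=
  covD_split 1 (by decide +kernel) Z_c0_t76 Z_c0_t77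

theorem Z_c0_t78 : CovD 1 gZ [(213890105344, 6013059072), (82464210944, 82464210944), (838377406464, 261134221312)] :=
  covD_split 1 (by decide +kernel) Z_c0_t79 Z_c0_t80

theorem Z_c0_t74 : CovD 1 gZ [(207877046272, 12026118144), (82464210944, 82464210944), (838377406464, 261134221312)] :=
  covD_split 0 (by decide +kernel) Z_c0_t75 Z_c0_t78

theorem Z_c0_t66 : CovD 1 gZ [(195850928128, 24052236288), (82464210944, 82464210944), (838377406464, 261134221312)] :=
  covD_split 0 (by decide +kernel) Z_c0_t67 Z_c0_t74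

theorem Z_c0 : CovD 1 gZ [(195850928128, 24052236288), (82464210944, 82464210944), (577243185152, 522268442624)] :=
  covD_split 2 (by decide +kernel) Z_c0_t1 Z_c0_t66

end Pool.Agent.helper14.NR.E5a
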